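import Mathlib

/-! Totally positive unipotent matrices by recursion. `Pos n u`: `u` is an upper unipotent matrix
of size `n` obtained from a positive one of size `n - 1` by the bidiagonal step. -/

namespace Pool.TPT

open Matrix Filter Topology

/-- shifted rows -/
def shp {n : ℕ} (w : Matrix (Fin n) (Fin n) ℝ) (i : Fin (n + 1)) (j : Fin n) : ℝ :=
  Fin.cases 0 (fun i' => w i' j) i

/-- scaled rows -/
def scp {n : ℕ} (b : Fin n → ℝ) (w : Matrix (Fin n) (Fin n) ℝ) (i : Fin (n + 1)) (j : Fin n) : ℝ :=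
  Fin.lastCases 0 (fun i' => b i' * w i' j) i

/-- the matrix `B(b) (1 ⊕ w)`: `B(b)` is unipotent upper bidiagonal with entries `b` -/
def step {n : ℕ} (b : Fin n → ℝ) (w : Matrix (Fin n) (Fin n) ℝ) :
    Matrix (Fin (n + 1)) (Fin (n + 1)) ℝ :=
  Matrix.of fun i j => Fin.cases (Fin.cases 1 (fun _ => 0) i) (fun j' => shp w i j' + scp b w i j') j

/-- totally positive unipotent matrices -/
def Pos : (n : ℕ) → Matrix (Fin n) (Fin n) ℝ → Prop
  | 0, _ => True
  | n + 1, u => ∃ (b : Fin n → ℝ) (w : Matrix (Fin n) (Fin n) ℝ),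
      (∀ i, 0 < b i) ∧ Pos n w ∧ u = step b w

/-- upper unipotent matrices -/
def Uni {n : ℕ} (u : Matrix (Fin n) (Fin n) ℝ) : Prop :=
  (∀ i, u i i = 1) ∧ ∀ i j, j < i → u i j = 0

section
variable {n : ℕ} (b : Fin n → ℝ) (w : Matrix (Fin n) (Fin n) ℝ)

@[simp] theorem shp_zero (j : Fin n) : shp w 0 j = 0 := rfl
@[simp] theorem shp_succ (i j : Fin n) : shp w i.succ j = w i j := rfl
@[simp] theorem scp_castSucc (i j : Fin n) : scp b w i.castSucc j = b i * w i j := by
  simp [scp]
@[simp] theorem scp_last (j : Fin n) : scp b w (Fin.last n) j = 0 := by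
  simp [scp]
@[simp] theorem step_succ (i : Fin (n + 1)) (j : Fin n) :
    step b w i j.succ = shp w i j + scp b w i j := rfl
@[simp] theorem step_zero_zero : step b w 0 0 = 1 := rfl
@[simp] theorem step_succ_zero (i : Fin n) : step b w i.succ 0 = 0 := rfl

end

theorem uni_step {n : ℕ} (b : Fin n → ℝ) {w : Matrix (Fin n) (Fin n) ℝ} (hw : Uni w) :
    Uni (step b w) := by
  refine ⟨fun i => ?_, fun i j hij => ?_⟩
  · refine Fin.cases ?_ (fun i => ?_) i
    · simp
    · rw [step_succ, shp_succ, hw.1 i]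
      refine Fin.lastCases (motive := fun k => k = i.succ → (1 : ℝ) + scp b w k i = 1) ?_ ?_
        i.succ rfl
      · intro _; simp
      · intro k hk
        rw [scp_castSucc, hw.2 k i, mul_zero, add_zero]
        rw [Fin.lt_def]
        have := congrArg Fin.val hk
        simp at this
        omega
  · revert hij
    refine Fin.cases ?_ (fun j => ?_) j
    · intro hij
      obtain ⟨i', rfl⟩ := Fin.exists_succ_eq.2 (ne_of_gt hij)
      simp
    · intro hij
      have hi0 : i ≠ 0 := by
        intro h; subst h; exact absurd hij (by simp)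
      obtain ⟨i', rfl⟩ := Fin.exists_succ_eq.2 hi0
      rw [Fin.succ_lt_succ_iff] at hij
      rw [step_succ, shp_succ, hw.2 _ _ hij, zero_add]
      refine Fin.lastCases (motive := fun k => k = i'.succ → scp b w k j = 0) ?_ ?_ i'.succ rfl
      · intro _; simp
      · intro k hk
        rw [scp_castSucc, hw.2 k j, mul_zero]
        have := congrArg Fin.val hk
        simp at this
        rw [Fin.lt_def] at hij ⊢
        omega

theorem Pos.uni : ∀ {n : ℕ} {u : Matrix (Fin n) (Fin n) ℝ}, Pos n u → Uni u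
  | 0, _, _ => ⟨fun i => i.elim0, fun i => i.elim0⟩
  | _ + 1, _, ⟨b, _, _, hw, h⟩ => h ▸ uni_step b hw.uni

theorem Pos.nonneg : ∀ {n : ℕ} {u : Matrix (Fin n) (Fin n) ℝ}, Pos n u → ∀ i j, 0 ≤ u i j
  | 0, _, _ => fun i => i.elim0
  | n + 1, u, ⟨b, w, hb, hw, h⟩ => by
    intro i j
    subst h
    have hw' := hw.nonneg
    refine Fin.cases ?_ (fun j => ?_) j
    · refine Fin.cases ?_ (fun i => ?_) i
      · simp
      · simp
    · rw [step_succ]
      refine add_nonneg ?_ ?_
      · refine Fin.cases ?_ (fun i => ?_) i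
        · simp
        · simpa using hw' i j
      · refine Fin.lastCases ?_ (fun i => ?_) i
        · simp
        · simpa using mul_nonneg (hb i).le (hw' i j)

/-- the bidiagonal entries are bounded by entries -/
theorem b_le {n : ℕ} {b : Fin n → ℝ} {w : Matrix (Fin n) (Fin n) ℝ} (hw : Pos n w) (i : Fin n) :
    b i ≤ step b w i.castSucc i.succ := by
  rw [step_succ, scp_castSucc, hw.uni.1 i, mul_one]
  refine le_add_of_nonneg_left ?_
  refine Fin.cases (motive := fun k => 0 ≤ shp w k i) ?_ (fun k => ?_) i.castSucc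
  · simp
  · simpa using hw.nonneg k i

theorem w_le {n : ℕ} {b : Fin n → ℝ} {w : Matrix (Fin n) (Fin n) ℝ} (hb : ∀ i, 0 < b i)
    (hw : Pos n w) (i j : Fin n) : w i j ≤ step b w i.succ j.succ := by
  rw [step_succ, shp_succ]
  refine le_add_of_nonneg_right ?_
  refine Fin.lastCases (motive := fun k => 0 ≤ scp b w k j) ?_ (fun k => ?_) i.succ
  · simp
  · simpa using mul_nonneg (hb k).le (hw.nonneg k j)

end Pool.TPT
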