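import Mathlib
import Pool.Agent.TPT.Pos

/-! Newton bases. The matrix taking the Newton basis of the nodes `s` to the Newton basis of the
nodes `t` is totally positive when all nodes `t` are smaller than all nodes `s` (repetitions inside
`s` or inside `t` are allowed, so osculating flags are included). -/

namespace Pool.TPT

open Matrix Polynomial

/-- the Newton polynomials `(X - s 0) ... (X - s (c - 1))` -/
noncomputable def nwt (s : ℕ → ℝ) (c : ℕ) : ℝ[X] := ∏ a ∈ Finset.range c, (X - C (s a))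

theorem nwt_zero (s : ℕ → ℝ) : nwt s 0 = 1 := by simp [nwt]

theorem nwt_succ (s : ℕ → ℝ) (c : ℕ) : nwt s (c + 1) = nwt s c * (X - C (s c)) := by
  simp [nwt, Finset.prod_range_succ]

theorem nwt_succ' (s : ℕ → ℝ) (c : ℕ) :
    nwt s (c + 1) = (X - C (s 0)) * nwt (fun a => s (a + 1)) c := by
  rw [nwt, Finset.prod_range_succ', mul_comm]
  rfl

theorem nwt_step (s : ℕ → ℝ) (t : ℝ) (c : ℕ) :
    nwt s (c + 1) + C (s c - t) * nwt s c = (X - C t) * nwt s c := by
  rw [nwt_succ, C_sub]; ring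

theorem nwt_monic (s : ℕ → ℝ) (c : ℕ) : (nwt s c).Monic :=
  monic_prod_of_monic _ _ fun _ _ => monic_X_sub_C _

theorem nwt_natDegree (s : ℕ → ℝ) (c : ℕ) : (nwt s c).natDegree = c := by
  rw [nwt, natDegree_prod_of_monic _ _ fun _ _ => monic_X_sub_C _]
  simp

theorem nwt_congr {s t : ℕ → ℝ} {c : ℕ} (h : ∀ a, a < c → s a = t a) : nwt s c = nwt t c :=
  Finset.prod_congr rfl fun a ha => by rw [h a (Finset.mem_range.1 ha)]

theorem sum_step {n : ℕ} (b : Fin n → ℝ) (w : Matrix (Fin n) (Fin n) ℝ) (N : ℕ → ℝ[X])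
    (j : Fin n) :
    ∑ i : Fin (n + 1), C (step b w i j.succ) * N i
      = ∑ i : Fin n, C (w i j) * (N (i + 1) + C (b i) * N i) := by
  have h : ∀ i : Fin (n + 1), C (step b w i j.succ) * N i
      = C (shp w i j) * N i + C (scp b w i j) * N i := by
    intro i; rw [step_succ, C_add, add_mul]
  rw [Finset.sum_congr rfl fun i _ => h i, Finset.sum_add_distrib, Fin.sum_univ_succ,
    Fin.sum_univ_castSucc (f := fun i : Fin (n + 1) => C (scp b w i j) * N i)]
  simp only [shp_zero, shp_succ, scp_castSucc, scp_last, C_0, zero_mul, zero_add, add_zero,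
    Fin.val_succ, Fin.val_castSucc]
  rw [← Finset.sum_add_distrib]
  refine Finset.sum_congr rfl fun i _ => ?_
  rw [C_mul]; ring

/-- the positive matrix between two Newton bases, as an identity of polynomials -/
theorem pos_nwt : ∀ (n : ℕ) (s t : ℕ → ℝ),
    (∀ i j, i + 1 < n → j + 1 < n → t j < s i) →
    ∃ u : Matrix (Fin n) (Fin n) ℝ, Pos n u ∧
      ∀ c : Fin n, nwt t c = ∑ r : Fin n, C (u r c) * nwt s r
  | 0, _, _, _ => ⟨0, trivial, fun c => c.elim0⟩
  | 1, s, t, _ => by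
    refine ⟨step (fun i => i.elim0) 0, ⟨_, 0, fun i => i.elim0, trivial, rfl⟩, fun c => ?_⟩
    have hc : c = 0 := Subsingleton.elim _ _
    subst hc
    rw [Fin.sum_univ_one]
    change nwt t 0 = C 1 * nwt s 0
    rw [nwt_zero, nwt_zero, C_1, one_mul]
  | n + 2, s, t, hst => by
    obtain ⟨w, hw, hN⟩ := pos_nwt (n + 1) s (fun a => t (a + 1))
      (fun i j hi hj => hst i (j + 1) (by omega) (by omega))
    refine ⟨step (fun i : Fin (n + 1) => s i - t 0) w,
      ⟨_, w, fun i => sub_pos.2 (hst i 0 (by omega) (by omega)), hw, rfl⟩, fun c => ?_⟩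
    refine Fin.cases ?_ (fun c => ?_) c
    · rw [Fin.sum_univ_succ, step_zero_zero]
      rw [Finset.sum_eq_zero]
      · rw [Fin.val_zero, nwt_zero, nwt_zero, C_1]; simp
      · intro i _
        rw [step_succ_zero, C_0, zero_mul]
    · rw [sum_step _ _ (nwt s), Fin.val_succ, nwt_succ', hN c, Finset.mul_sum]
      refine Finset.sum_congr rfl fun i _ => ?_
      rw [nwt_step]; ring

/-- the matrix of the Newton basis: column `c` holds the coefficients of `nwt s c` -/
noncomputable def gN (n : ℕ) (s : ℕ → ℝ) : Matrix (Fin n) (Fin n) ℝ :=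
  Matrix.of fun r c => (nwt s c).coeff r

theorem gN_apply (n : ℕ) (s : ℕ → ℝ) (r c : Fin n) : gN n s r c = (nwt s c).coeff r := rfl

theorem uni_gN (n : ℕ) (s : ℕ → ℝ) : Uni (gN n s) := by
  refine ⟨fun i => ?_, fun i j hij => ?_⟩
  · have h := nwt_monic s i
    rw [Monic, leadingCoeff, nwt_natDegree] at h
    exact h
  · rw [gN_apply]
    exact coeff_eq_zero_of_natDegree_lt ((nwt_natDegree s j).trans_lt hij)

theorem gN_mul {n : ℕ} {s t : ℕ → ℝ} {u : Matrix (Fin n) (Fin n) ℝ}
    (h : ∀ c : Fin n, nwt t c = ∑ r : Fin n, C (u r c) * nwt s r) : gN n t = gN n s * u := by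
  ext r c
  rw [Matrix.mul_apply, gN_apply, h c, finsetSum_coeff]
  refine Finset.sum_congr rfl fun i _ => ?_
  rw [coeff_C_mul, gN_apply, mul_comm]

/-- cosecant matrices: the quotient of two Newton matrices is totally positive -/
theorem pos_gN (n : ℕ) (s t : ℕ → ℝ) (hst : ∀ i j, i + 1 < n → j + 1 < n → t j < s i) :
    ∃ u : Matrix (Fin n) (Fin n) ℝ, Pos n u ∧ gN n t = gN n s * u := by
  obtain ⟨u, hu, h⟩ := pos_nwt n s t hst
  exact ⟨u, hu, gN_mul h⟩

theorem det_uni {n : ℕ} {u : Matrix (Fin n) (Fin n) ℝ} (hu : Uni u) : u.det = 1 := by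
  rw [Matrix.det_of_isUpperTriangular (fun i j hij => hu.2 i j hij)]
  exact Finset.prod_eq_one fun i _ => hu.1 i

theorem isUnit_det_gN (n : ℕ) (s : ℕ → ℝ) : IsUnit (gN n s).det := by
  rw [det_uni (uni_gN n s)]; exact isUnit_one

/-- the same with the inverse matrix -/
theorem pos_gN_inv (n : ℕ) (s t : ℕ → ℝ) (hst : ∀ i j, i + 1 < n → j + 1 < n → t j < s i) :
    Pos n ((gN n s)⁻¹ * gN n t) := by
  obtain ⟨u, hu, h⟩ := pos_gN n s t hst
  rw [h, Matrix.nonsing_inv_mul_cancel_left _ _ (isUnit_det_gN n s)]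
  exact hu

end Pool.TPT
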