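import Pool.Agent.TPT.UL

/-! Theorem T (helper61): conormal vectors of Schubert cells at a common point for positive flags
are linearly independent. Matrix form. -/

namespace Pool.TPT

open Matrix Filter Topology

section
variable {n : ℕ}

theorem low_of_det {b : Matrix (Fin n) (Fin n) ℝ} (h : ∀ i j, i < j → b i j = 0)
    (hd : b.det ≠ 0) : Low b := by
  refine ⟨h, fun i hi => hd ?_⟩
  rw [Matrix.det_of_isLowerTriangular]
  · exact Finset.prod_eq_zero (Finset.mem_univ i) hi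
  · intro i j hij
    exact h i j hij

theorem Low.inv {b : Matrix (Fin n) (Fin n) ℝ} (hb : Low b) : Low b⁻¹ := by
  have h1 : b⁻¹.IsLowerTriangular := by
    have h0 : b.IsLowerTriangular := fun i j h => hb.1 i j h
    let _ := b.invertibleOfIsUnitDet hb.isUnit
    exact Matrix.blockTriangular_inv_of_blockTriangular h0
  refine low_of_det (fun i j hij => h1 hij) ?_
  rw [Matrix.det_nonsing_inv]
  exact (hb.isUnit.ringInverse).ne_zero

theorem Uni.inv_eq {A : Matrix (Fin n) (Fin n) ℝ} (hA : Uni A) : A⁻¹ = A.adjugate := by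
  rw [Matrix.inv_def, hA.det, Ring.inverse_one, one_smul]

theorem tendsto_inv {α : Type*} {l : Filter α} {u : α → Matrix (Fin n) (Fin n) ℝ}
    {L : Matrix (Fin n) (Fin n) ℝ} (hu : ∀ᶠ a in l, Uni (u a)) (hL : Uni L)
    (h : Tendsto u l (𝓝 L)) : Tendsto (fun a => (u a)⁻¹) l (𝓝 L⁻¹) := by
  rw [hL.inv_eq]
  have h1 : Continuous fun A : Matrix (Fin n) (Fin n) ℝ => A.adjugate :=
    continuous_id.matrix_adjugate
  refine ((h1.tendsto L).comp h).congr' ?_
  filter_upwards [hu] with a ha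
  exact (ha.inv_eq).symm

theorem tendsto_mul' {α : Type*} {l : Filter α} {u v : α → Matrix (Fin n) (Fin n) ℝ}
    {L M : Matrix (Fin n) (Fin n) ℝ} (hu : Tendsto u l (𝓝 L)) (hv : Tendsto v l (𝓝 M)) :
    Tendsto (fun a => u a * v a) l (𝓝 (L * M)) := by
  have h1 : Continuous fun p : Matrix (Fin n) (Fin n) ℝ × Matrix (Fin n) (Fin n) ℝ => p.1 * p.2 :=
    continuous_fst.matrix_mul continuous_snd
  exact (h1.tendsto (L, M)).comp (hu.prodMk_nhds hv)

/-- products of nonnegative unipotent matrices dominate the left factor -/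
theorem le_mul_right {A B : Matrix (Fin n) (Fin n) ℝ} (hA : ∀ i j, 0 ≤ A i j)
    (hB : Uni B) (hB' : ∀ i j, 0 ≤ B i j) (i j : Fin n) : A i j ≤ (A * B) i j := by
  rw [Matrix.mul_apply]
  calc A i j = A i j * B j j := by rw [hB.1, mul_one]
    _ ≤ ∑ k, A i k * B k j :=
      Finset.single_le_sum (f := fun k => A i k * B k j)
        (fun k _ => mul_nonneg (hA i k) (hB' k j)) (Finset.mem_univ j)

theorem mul_nonneg' {A B : Matrix (Fin n) (Fin n) ℝ} (hA : ∀ i j, 0 ≤ A i j)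
    (hB' : ∀ i j, 0 ≤ B i j) (i j : Fin n) : 0 ≤ (A * B) i j := by
  rw [Matrix.mul_apply]
  exact Finset.sum_nonneg fun k _ => mul_nonneg (hA i k) (hB' k j)

theorem low_one_add {x : Matrix (Fin n) (Fin n) ℝ} (hx : SLow x) (t : ℝ) :
    Low (1 + t • x) := by
  refine ⟨fun i j hij => ?_, fun i => ?_⟩
  · rw [Matrix.add_apply, Matrix.smul_apply, hx i j hij.le, Matrix.one_apply_ne hij.ne]
    simp
  · rw [Matrix.add_apply, Matrix.smul_apply, hx i i le_rfl, Matrix.one_apply_eq]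
    simp

theorem uni_one_add {y : Matrix (Fin n) (Fin n) ℝ} (hy : SUpp y) (t : ℝ) :
    Uni (1 + t • y) := by
  refine ⟨fun i => ?_, fun i j hij => ?_⟩
  · rw [Matrix.add_apply, Matrix.smul_apply, hy i i le_rfl, Matrix.one_apply_eq]
    simp
  · rw [Matrix.add_apply, Matrix.smul_apply, hy i j hij.le, Matrix.one_apply_ne hij.ne']
    simp

theorem SUpp.conj {y u : Matrix (Fin n) (Fin n) ℝ} (hy : SUpp y) (hu : Uni u) :
    SUpp (u⁻¹ * y * u) := by
  have h1 : ∀ i j, j ≤ i → (u⁻¹ * y) i j = 0 := by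
    intro i j hij
    rw [Matrix.mul_apply]
    refine Finset.sum_eq_zero fun k _ => ?_
    rcases lt_or_ge k i with h | h
    · rw [hu.inv.2 i k h, zero_mul]
    · rw [hy k j (hij.trans h), mul_zero]
  intro i j hij
  rw [Matrix.mul_apply]
  refine Finset.sum_eq_zero fun k _ => ?_
  rcases le_or_gt k i with h | h
  · rw [h1 i k h, zero_mul]
  · rw [hu.2 k j (lt_of_le_of_lt hij h), mul_zero]

/-- the data of Theorem T -/
structure Data (n M : ℕ) (u x : ℕ → Matrix (Fin n) (Fin n) ℝ) : Prop where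
  u0 : u 0 = 1
  uni : ∀ i ≤ M, Uni (u i)
  pos : ∀ i < M, Pos n ((u i)⁻¹ * u (i + 1))
  slow : ∀ i ≤ M, SLow ((u i)⁻¹ * x i * u i)
  mul : ∀ i ≤ M, ∀ j ≤ M, x i * x j = 0
  sum : SUpp (∑ i ∈ Finset.range (M + 1), x i)

variable {M : ℕ} {u x : ℕ → Matrix (Fin n) (Fin n) ℝ}

/-- partial sums -/
def ps (x : ℕ → Matrix (Fin n) (Fin n) ℝ) (i : ℕ) : Matrix (Fin n) (Fin n) ℝ :=
  ∑ j ∈ Finset.range i, x j

theorem ps_mul (D : Data n M u x) {i j : ℕ} (hi : i ≤ M + 1) (hj : j ≤ M) : ps x i * x j = 0 := by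
  rw [ps, Finset.sum_mul]
  exact Finset.sum_eq_zero fun k hk => D.mul k (by have := Finset.mem_range.1 hk; omega) j hj

theorem ps_mul_ps (D : Data n M u x) {i j : ℕ} (hi : i ≤ M + 1) (hj : j ≤ M + 1) :
    ps x i * ps x j = 0 := by
  rw [ps, ps, Finset.sum_mul]
  refine Finset.sum_eq_zero fun k hk => ?_
  rw [Finset.mul_sum]
  refine Finset.sum_eq_zero fun l hl => ?_
  have := Finset.mem_range.1 hk
  have := Finset.mem_range.1 hl
  exact D.mul k (by omega) l (by omega)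

theorem det_ps (D : Data n M u x) {i : ℕ} (hi : i ≤ M + 1) (t : ℝ) :
    (1 + t • ps x i).det ≠ 0 := by
  have h : (1 + t • ps x i) * (1 - t • ps x i) = 1 := by
    have h1 := ps_mul_ps D hi hi
    rw [mul_sub, mul_one, add_mul, one_mul, Matrix.smul_mul, Matrix.mul_smul, h1]
    simp
  have h2 := congrArg Matrix.det h
  rw [Matrix.det_mul, Matrix.det_one] at h2
  exact left_ne_zero_of_mul_eq_one h2

/-- the relation of consecutive flags along the path -/
theorem rel (D : Data n M u x) {i : ℕ} (hi : i < M) (t : ℝ) :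
    (1 + t • ps x (i + 1)) * u (i + 1) * (1 + t • ((u (i + 1))⁻¹ * x (i + 1) * u (i + 1))) =
      (1 + t • ps x (i + 2)) * u (i + 1) := by
  have hu := D.uni (i + 1) (by omega)
  have h1 : u (i + 1) * (1 + t • ((u (i + 1))⁻¹ * x (i + 1) * u (i + 1))) =
      (1 + t • x (i + 1)) * u (i + 1) := by
    rw [mul_add, mul_one, Matrix.mul_smul, ← mul_assoc, ← mul_assoc,
      Matrix.mul_nonsing_inv _ hu.isUnit, one_mul, add_mul, one_mul, Matrix.smul_mul]
  have h2 : (1 + t • ps x (i + 1)) * (1 + t • x (i + 1)) = 1 + t • ps x (i + 2) := by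
    have h3 : ps x (i + 2) = ps x (i + 1) + x (i + 1) := Finset.sum_range_succ _ _
    have h4 : ps x (i + 1) * x (i + 1) = 0 := ps_mul D (by omega) (by omega)
    rw [h3, mul_add, mul_one, add_mul, one_mul, Matrix.smul_mul, Matrix.mul_smul, h4, smul_add]
    simp [add_assoc]
  rw [mul_assoc, h1, ← mul_assoc, h2]

/-- positivity along the path -/
def PT (M : ℕ) (u x : ℕ → Matrix (Fin n) (Fin n) ℝ) (t : ℝ) : Prop :=
  ∃ v : ℕ → Matrix (Fin n) (Fin n) ℝ, v 0 = 1 ∧ (∀ i ≤ M, Uni (v i)) ∧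
    (∀ i < M, Pos n ((v i)⁻¹ * v (i + 1))) ∧
    ∀ i ≤ M, ∃ b, Low b ∧ (1 + t • ps x (i + 1)) * u i = v i * b

theorem PT_zero (D : Data n M u x) : PT M u x 0 := by
  refine ⟨u, D.u0, D.uni, D.pos, fun i _ => ⟨1, ?_, by simp⟩⟩
  exact ⟨fun i j h => Matrix.one_apply_ne h.ne, fun i => by simp⟩

theorem PT_open (D : Data n M u x) : IsOpen {t : ℝ | PT M u x t} := by
  rw [isOpen_iff_mem_nhds]
  rintro t0 ⟨v0, hv0, huv, hpos, hb⟩
  have hex : ∀ i, ∃ V : Matrix (Fin n) (Fin n) ℝ → Matrix (Fin n) (Fin n) ℝ, i ≤ M →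
      Tendsto V (𝓝 ((1 + t0 • ps x (i + 1)) * u i)) (𝓝 (v0 i)) ∧
      ∀ᶠ g in 𝓝 ((1 + t0 • ps x (i + 1)) * u i), Uni (V g) ∧ ∃ b, Low b ∧ g = V g * b := by
    intro i
    by_cases hi : i ≤ M
    · obtain ⟨b, hb1, hb2⟩ := hb i hi
      obtain ⟨V, h1, h2⟩ := ul_near (huv i hi) hb1
      rw [hb2]
      exact ⟨V, fun _ => ⟨h1, h2⟩⟩
    · exact ⟨id, fun h => absurd h hi⟩
  choose V hV using hex
  have hcont : ∀ i, Tendsto (fun t : ℝ => (1 + t • ps x (i + 1)) * u i) (𝓝 t0)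
      (𝓝 ((1 + t0 • ps x (i + 1)) * u i)) := by
    intro i
    have : Continuous fun t : ℝ => (1 + t • ps x (i + 1)) * u i :=
      (continuous_const.add (continuous_id.smul continuous_const)).matrix_mul continuous_const
    exact this.tendsto t0
  let v : ℝ → ℕ → Matrix (Fin n) (Fin n) ℝ := fun t i =>
    if i = 0 then 1 else V i ((1 + t • ps x (i + 1)) * u i)
  have hvt : ∀ i ≤ M, Tendsto (fun t => v t i) (𝓝 t0) (𝓝 (v0 i)) := by
    intro i hi
    by_cases h0 : i = 0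
    · subst h0
      simp only [v, if_true, hv0]
      exact tendsto_const_nhds
    · simp only [v, if_neg h0]
      exact (hV i hi).1.comp (hcont i)
  have hdec : ∀ i ≤ M, ∀ᶠ t in 𝓝 t0, Uni (v t i) ∧
      ∃ b, Low b ∧ (1 + t • ps x (i + 1)) * u i = v t i * b := by
    intro i hi
    by_cases h0 : i = 0
    · subst h0
      refine Filter.Eventually.of_forall fun t => ?_
      simp only [v, if_true]
      refine ⟨Uni.one, 1 + t • x 0, low_one_add ?_ t, ?_⟩
      · have := D.slow 0 hi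
        rw [D.u0] at this
        simpa using this
      · rw [D.u0, mul_one, one_mul]
        simp [ps]
    · simp only [v, if_neg h0]
      exact (hcont i).eventually (hV i hi).2
  have hposv : ∀ i < M, ∀ᶠ t in 𝓝 t0, Pos n ((v t i)⁻¹ * v t (i + 1)) := by
    intro i hi
    have h1 : Tendsto (fun t => (v t i)⁻¹ * v t (i + 1)) (𝓝 t0) (𝓝 ((v0 i)⁻¹ * v0 (i + 1))) := by
      refine tendsto_mul' (tendsto_inv ?_ (huv i hi.le) (hvt i hi.le)) (hvt (i + 1) hi)
      filter_upwards [hdec i hi.le] with t ht using ht.1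
    filter_upwards [h1.eventually (pos_open (hpos i hi)), hdec i hi.le, hdec (i + 1) hi]
      with t h2 h3 h4
    exact h2 (h3.1.inv.mul h4.1)
  have hfin1 : ∀ᶠ t in 𝓝 t0, ∀ i ∈ Set.Iic M, Uni (v t i) ∧
      ∃ b, Low b ∧ (1 + t • ps x (i + 1)) * u i = v t i * b :=
    (Filter.eventually_all_finite (Set.finite_Iic M)).2 fun i hi => hdec i hi
  have hfin2 : ∀ᶠ t in 𝓝 t0, ∀ i ∈ Set.Iio M, Pos n ((v t i)⁻¹ * v t (i + 1)) :=
    (Filter.eventually_all_finite (Set.finite_Iio M)).2 fun i hi => hposv i hi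
  filter_upwards [hfin1, hfin2] with t h1 h2
  refine ⟨v t, by simp [v], fun i hi => (h1 i hi).1, fun i hi => h2 i hi, fun i hi => (h1 i hi).2⟩

theorem PT_closed (D : Data n M u x) : IsClosed {t : ℝ | PT M u x t} := by
  rw [isClosed_iff_ultrafilter]
  intro t0 U hU hmem
  have hex : ∀ t, ∃ v : ℕ → Matrix (Fin n) (Fin n) ℝ, PT M u x t → v 0 = 1 ∧
      (∀ i ≤ M, Uni (v i)) ∧ (∀ i < M, Pos n ((v i)⁻¹ * v (i + 1))) ∧
      ∀ i ≤ M, ∃ b, Low b ∧ (1 + t • ps x (i + 1)) * u i = v i * b := by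
    intro t
    by_cases h : PT M u x t
    · obtain ⟨v, hv⟩ := h
      exact ⟨v, fun _ => hv⟩
    · exact ⟨fun _ => 1, fun h' => absurd h' h⟩
  choose v hv using hex
  have hev : ∀ᶠ t in (U : Filter ℝ), PT M u x t := hmem
  have hUt : Tendsto (fun t : ℝ => t) U (𝓝 t0) := hU
  have hcont : ∀ i, Tendsto (fun t : ℝ => (1 + t • ps x (i + 1)) * u i) U
      (𝓝 ((1 + t0 • ps x (i + 1)) * u i)) := by
    intro i
    have : Continuous fun t : ℝ => (1 + t • ps x (i + 1)) * u i :=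
      (continuous_const.add (continuous_id.smul continuous_const)).matrix_mul continuous_const
    exact (this.tendsto t0).comp hUt
  -- the last one is explicit
  have hlast : ∀ t, PT M u x t → v t M = (1 + t • ps x (M + 1)) * u M := by
    intro t ht
    obtain ⟨-, h2, -, h4⟩ := hv t ht
    obtain ⟨b, hb, he⟩ := h4 M le_rfl
    exact (ul_unique ((uni_one_add D.sum t).mul (D.uni M le_rfl)) (h2 M le_rfl) hb he).symm
  have hstep : ∀ t, PT M u x t → ∀ i < M, v t (i + 1) = v t i * ((v t i)⁻¹ * v t (i + 1)) := by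
    intro t ht i hi
    rw [← mul_assoc, Matrix.mul_nonsing_inv _ ((hv t ht).2.1 i hi.le).isUnit, one_mul]
  have hnn : ∀ t, PT M u x t → ∀ i ≤ M, ∀ k l, 0 ≤ v t i k l := by
    intro t ht i
    induction i with
    | zero =>
      intro _ k l
      rw [(hv t ht).1, Matrix.one_apply]
      split_ifs <;> norm_num
    | succ i ih =>
      intro hi
      rw [hstep t ht i hi]
      exact mul_nonneg' (ih (by omega)) ((hv t ht).2.2.1 i hi).nonneg
  have hmono : ∀ t, PT M u x t → ∀ i < M, ∀ k l, v t i k l ≤ v t (i + 1) k l := by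
    intro t ht i hi k l
    rw [hstep t ht i hi]
    have hp := (hv t ht).2.2.1 i hi
    exact le_mul_right (hnn t ht i hi.le) hp.uni hp.nonneg k l
  have hle : ∀ t, PT M u x t → ∀ d i, i + d = M → ∀ k l, v t i k l ≤ v t M k l := by
    intro t ht d
    induction d with
    | zero => intro i hi k l; rw [show i = M by omega]
    | succ d ih =>
      intro i hi k l
      exact (hmono t ht i (by omega) k l).trans (ih (i + 1) (by omega) k l)
  have hlim : ∀ i ≤ M, ∀ k l, ∃ c, Tendsto (fun t => v t i k l) U (𝓝 c) := by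
    intro i hi k l
    refine lim_bdd U (a := 0) (b := ((1 + t0 • ps x (M + 1)) * u M) k l + 1) ?_
    have h1 : ∀ᶠ t in (U : Filter ℝ), ((1 + t • ps x (M + 1)) * u M) k l <
        ((1 + t0 • ps x (M + 1)) * u M) k l + 1 :=
      (tendsto_entry.1 (hcont M) k l).eventually_lt_const (by linarith)
    filter_upwards [hev, h1] with t ht h2
    refine ⟨hnn t ht i hi k l, ?_⟩
    have h3 := hle t ht (M - i) i (by omega) k l
    rw [hlast t ht] at h3
    linarith
  have hex2 : ∀ i, ∃ w : Matrix (Fin n) (Fin n) ℝ, i ≤ M → Tendsto (fun t => v t i) U (𝓝 w) := by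
    intro i
    by_cases hi : i ≤ M
    · choose w hw using hlim i hi
      exact ⟨Matrix.of w, fun _ => tendsto_entry.2 hw⟩
    · exact ⟨1, fun h => absurd h hi⟩
  choose w hw using hex2
  have huw : ∀ i ≤ M, Uni (w i) := by
    intro i hi
    refine uni_lim (l := (U : Filter ℝ)) (u := fun t => v t i) ?_ (tendsto_entry.1 (hw i hi))
    filter_upwards [hev] with t ht using (hv t ht).2.1 i hi
  have hwinv : ∀ i ≤ M, Tendsto (fun t => (v t i)⁻¹) U (𝓝 (w i)⁻¹) := by
    intro i hi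
    refine tendsto_inv ?_ (huw i hi) (hw i hi)
    filter_upwards [hev] with t ht using (hv t ht).2.1 i hi
  -- the lower triangular factors
  have hlow : ∀ i ≤ M, Low ((w i)⁻¹ * ((1 + t0 • ps x (i + 1)) * u i)) := by
    intro i hi
    have h1 : Tendsto (fun t => (v t i)⁻¹ * ((1 + t • ps x (i + 1)) * u i)) U
        (𝓝 ((w i)⁻¹ * ((1 + t0 • ps x (i + 1)) * u i))) := tendsto_mul' (hwinv i hi) (hcont i)
    refine low_of_det (fun k l hkl => ?_) ?_
    · refine tendsto_nhds_unique (tendsto_entry.1 h1 k l) ?_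
      refine tendsto_const_nhds.congr' ?_
      filter_upwards [hev] with t ht
      obtain ⟨b, hb, he⟩ := (hv t ht).2.2.2 i hi
      rw [he, ← mul_assoc, Matrix.nonsing_inv_mul _ ((hv t ht).2.1 i hi).isUnit, one_mul,
        hb.1 k l hkl]
    · rw [Matrix.det_mul, Matrix.det_mul, (huw i hi).inv.det, (D.uni i hi).det, one_mul, mul_one]
      exact det_ps D (by omega) t0
  have hwfac : ∀ i ≤ M, (1 + t0 • ps x (i + 1)) * u i =
      w i * ((w i)⁻¹ * ((1 + t0 • ps x (i + 1)) * u i)) := by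
    intro i hi
    rw [← mul_assoc (w i), Matrix.mul_nonsing_inv _ (huw i hi).isUnit, one_mul]
  refine ⟨w, ?_, huw, fun i hi => ?_, fun i hi => ⟨_, hlow i hi, hwfac i hi⟩⟩
  · refine tendsto_nhds_unique (hw 0 (by omega)) ?_
    refine tendsto_const_nhds.congr' ?_
    filter_upwards [hev] with t ht using ((hv t ht).1).symm
  · refine pos_lim U (fun t => (v t i)⁻¹ * v t (i + 1)) _ ?_ (tendsto_entry.1
      (tendsto_mul' (hwinv i hi.le) (hw (i + 1) hi))) ?_
    · filter_upwards [hev] with t ht using (hv t ht).2.2.1 i hi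
    · intro j hj
      have ha := D.pos i hi
      have hll : Low (1 + t0 • ((u (i + 1))⁻¹ * x (i + 1) * u (i + 1))) :=
        low_one_add (D.slow (i + 1) hi) t0
      obtain ⟨β1, hβ1, e1⟩ := low_mul_nm (hlow i hi.le) j hj
      obtain ⟨β2, hβ2, e2⟩ := nm_mul_low hll j hj
      obtain ⟨β3, hβ3, e3⟩ := nm_mul_low (hlow (i + 1) hi) j hj
      have hrel : (w i)⁻¹ * ((1 + t0 • ps x (i + 1)) * u i) * ((u i)⁻¹ * u (i + 1)) *
          (1 + t0 • ((u (i + 1))⁻¹ * x (i + 1) * u (i + 1))) =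
          (w i)⁻¹ * w (i + 1) * ((w (i + 1))⁻¹ * ((1 + t0 • ps x (i + 2)) * u (i + 1))) := by
        have h1 : (w i)⁻¹ * ((1 + t0 • ps x (i + 1)) * u i) * ((u i)⁻¹ * u (i + 1)) =
            (w i)⁻¹ * ((1 + t0 • ps x (i + 1)) * u (i + 1)) := by
          rw [mul_assoc, mul_assoc (1 + t0 • ps x (i + 1)), ← mul_assoc (u i),
            Matrix.mul_nonsing_inv _ (D.uni i hi.le).isUnit, one_mul]
        rw [h1, mul_assoc, rel D hi t0, mul_assoc (w i)⁻¹ (w (i + 1)),
          ← hwfac (i + 1) hi]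
      have h5 := e2 ⟨j, by omega⟩ ((w i)⁻¹ * ((1 + t0 • ps x (i + 1)) * u i) *
        ((u i)⁻¹ * u (i + 1)))
      rw [hrel, e3, e1] at h5
      intro h0
      rw [h0, zero_mul] at h5
      exact mul_ne_zero (mul_ne_zero hβ1 (ha.nm_pos j hj).ne') hβ2 h5.symm

/-- positivity for all times -/
theorem PT_all (D : Data n M u x) (t : ℝ) : PT M u x t := by
  have h : {t : ℝ | PT M u x t} = Set.univ :=
    IsClopen.eq_univ ⟨PT_closed D, PT_open D⟩ ⟨0, PT_zero D⟩
  have : t ∈ {t : ℝ | PT M u x t} := by rw [h]; trivial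
  exact this

theorem Data.zero (D : Data n M u x) (hM : 1 ≤ M) : x 0 = 0 := by
  have hx0 : SLow (x 0) := by
    have := D.slow 0 (by omega)
    rw [D.u0] at this
    simpa using this
  have ha : Pos n (u 1) := by
    have := D.pos 0 (by omega)
    rw [D.u0] at this
    simpa using this
  refine first_zero hx0 ha fun t => ?_
  obtain ⟨v, hv0, -, hp, hb⟩ := PT_all D t
  obtain ⟨b, hb1, hb2⟩ := hb 1 hM
  have hv1 : Pos n (v 1) := by
    have := hp 0 (by omega)
    rw [hv0] at this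
    simpa using this
  have hll : Low (1 + t • ((u (0 + 1))⁻¹ * x (0 + 1) * u (0 + 1))) :=
    low_one_add (D.slow 1 hM) t
  have hr := rel D (i := 0) (by omega) t
  refine ⟨v 1, hv1, b * (1 + t • ((u (0 + 1))⁻¹ * x (0 + 1) * u (0 + 1)))⁻¹,
    hb1.mul hll.inv, ?_⟩
  have h1 : ps x (0 + 1) = x 0 := by simp [ps]
  rw [h1] at hr
  rw [← mul_assoc, ← hb2, ← hr, mul_assoc ((1 + t • x 0) * u (0 + 1)),
    Matrix.mul_nonsing_inv _ hll.isUnit, mul_one]

/-- removing the first flag -/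
theorem Data.tail (D : Data n (M + 1) u x) (h0 : x 0 = 0) :
    Data n M (fun i => (u 1)⁻¹ * u (i + 1)) (fun i => (u 1)⁻¹ * x (i + 1) * u 1) := by
  have hu1 : Uni (u 1) := D.uni 1 (by omega)
  have hi1 : (u 1)⁻¹ * u 1 = 1 := Matrix.nonsing_inv_mul _ hu1.isUnit
  have hi2 : u 1 * (u 1)⁻¹ = 1 := Matrix.mul_nonsing_inv _ hu1.isUnit
  have hinv : ∀ A : Matrix (Fin n) (Fin n) ℝ, ((u 1)⁻¹ * A)⁻¹ = A⁻¹ * u 1 := by
    intro A
    rw [Matrix.mul_inv_rev, Matrix.nonsing_inv_nonsing_inv _ hu1.isUnit]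
  refine ⟨?_, fun i hi => hu1.inv.mul (D.uni (i + 1) (by omega)), fun i hi => ?_, fun i hi => ?_,
    fun i hi j hj => ?_, ?_⟩
  · exact hi1
  · rw [hinv, mul_assoc, ← mul_assoc (u 1), hi2, one_mul]
    exact D.pos (i + 1) (by omega)
  · have : ((u 1)⁻¹ * u (i + 1))⁻¹ * ((u 1)⁻¹ * x (i + 1) * u 1) * ((u 1)⁻¹ * u (i + 1)) =
        (u (i + 1))⁻¹ * x (i + 1) * u (i + 1) := by
      rw [hinv]
      calc (u (i + 1))⁻¹ * u 1 * ((u 1)⁻¹ * x (i + 1) * u 1) * ((u 1)⁻¹ * u (i + 1)) =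
          (u (i + 1))⁻¹ * (u 1 * (u 1)⁻¹) * x (i + 1) * (u 1 * (u 1)⁻¹) * u (i + 1) := by
            noncomm_ring
        _ = _ := by rw [hi2, mul_one, mul_one]
    rw [this]
    exact D.slow (i + 1) (by omega)
  · calc (u 1)⁻¹ * x (i + 1) * u 1 * ((u 1)⁻¹ * x (j + 1) * u 1) =
        (u 1)⁻¹ * (x (i + 1) * (u 1 * (u 1)⁻¹) * x (j + 1)) * u 1 := by noncomm_ring
      _ = 0 := by
        rw [hi2, mul_one, D.mul (i + 1) (by omega) (j + 1) (by omega)]
        simp
  · have h1 : ∑ i ∈ Finset.range (M + 1), (u 1)⁻¹ * x (i + 1) * u 1 =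
        (u 1)⁻¹ * (∑ i ∈ Finset.range (M + 1 + 1), x i) * u 1 := by
      rw [Finset.sum_range_succ' x (M + 1), h0, add_zero, Finset.mul_sum, Finset.sum_mul]
    change SUpp (∑ i ∈ Finset.range (M + 1), (u 1)⁻¹ * x (i + 1) * u 1)
    rw [h1]
    exact D.sum.conj hu1

theorem Data.all : ∀ {M : ℕ} {u x : ℕ → Matrix (Fin n) (Fin n) ℝ}, Data n M u x →
    ∀ i ≤ M, x i = 0
  | 0, u, x, D => by
    intro i hi
    obtain rfl : i = 0 := by omega
    have h1 := D.slow 0 le_rfl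
    have h2 := D.sum
    rw [D.u0] at h1
    simp only [inv_one, one_mul, mul_one] at h1
    simp only [zero_add, Finset.range_one, Finset.sum_singleton] at h2
    ext k l
    rcases le_total k l with h | h
    · exact h1 k l h
    · exact h2 k l h
  | M + 1, u, x, D => by
    have h0 := D.zero (by omega)
    have ht := (D.tail h0).all
    have hu1 : Uni (u 1) := D.uni 1 (by omega)
    intro i hi
    cases i with
    | zero => exact h0
    | succ i =>
      have h1 : (u 1)⁻¹ * x (i + 1) * u 1 = 0 := ht i (by omega)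
      calc x (i + 1) = (u 1 * (u 1)⁻¹) * x (i + 1) * (u 1 * (u 1)⁻¹) := by
            rw [Matrix.mul_nonsing_inv _ hu1.isUnit, one_mul, mul_one]
        _ = u 1 * ((u 1)⁻¹ * x (i + 1) * u 1) * (u 1)⁻¹ := by noncomm_ring
        _ = 0 := by rw [h1]; simp

end

/-- **Theorem T.** Flags `u i F₀` (`i ≤ M`), `u i` upper unipotent with positive quotients
`(u i)⁻¹ u (i + 1)`; `x i` nilpotent for the `i`-th flag, all products zero, the sum strictly upper
triangular (nilpotent for `F_∞`): then all `x i` vanish. -/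
theorem theoremT {n M : ℕ} {u x : ℕ → Matrix (Fin n) (Fin n) ℝ} (huni : ∀ i ≤ M, Uni (u i))
    (hpos : ∀ i < M, Pos n ((u i)⁻¹ * u (i + 1))) (hslow : ∀ i ≤ M, SLow ((u i)⁻¹ * x i * u i))
    (hmul : ∀ i ≤ M, ∀ j ≤ M, x i * x j = 0)
    (hsum : SUpp (∑ i ∈ Finset.range (M + 1), x i)) : ∀ i ≤ M, x i = 0 := by
  have hu0 : Uni (u 0) := huni 0 (Nat.zero_le _)
  have hi1 : (u 0)⁻¹ * u 0 = 1 := Matrix.nonsing_inv_mul _ hu0.isUnit
  have hi2 : u 0 * (u 0)⁻¹ = 1 := Matrix.mul_nonsing_inv _ hu0.isUnit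
  have hinv : ∀ A : Matrix (Fin n) (Fin n) ℝ, ((u 0)⁻¹ * A)⁻¹ = A⁻¹ * u 0 := by
    intro A
    rw [Matrix.mul_inv_rev, Matrix.nonsing_inv_nonsing_inv _ hu0.isUnit]
  have D : Data n M (fun i => (u 0)⁻¹ * u i) (fun i => (u 0)⁻¹ * x i * u 0) := by
    refine ⟨hi1, fun i hi => hu0.inv.mul (huni i hi), fun i hi => ?_, fun i hi => ?_,
      fun i hi j hj => ?_, ?_⟩
    · rw [hinv, mul_assoc, ← mul_assoc (u 0), hi2, one_mul]
      exact hpos i hi
    · have : ((u 0)⁻¹ * u i)⁻¹ * ((u 0)⁻¹ * x i * u 0) * ((u 0)⁻¹ * u i) =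
          (u i)⁻¹ * x i * u i := by
        rw [hinv]
        calc (u i)⁻¹ * u 0 * ((u 0)⁻¹ * x i * u 0) * ((u 0)⁻¹ * u i) =
            (u i)⁻¹ * (u 0 * (u 0)⁻¹) * x i * (u 0 * (u 0)⁻¹) * u i := by noncomm_ring
          _ = _ := by rw [hi2, mul_one, mul_one]
      rw [this]
      exact hslow i hi
    · calc (u 0)⁻¹ * x i * u 0 * ((u 0)⁻¹ * x j * u 0) =
          (u 0)⁻¹ * (x i * (u 0 * (u 0)⁻¹) * x j) * u 0 := by noncomm_ring
        _ = 0 := by
          rw [hi2, mul_one, hmul i hi j hj]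
          simp
    · have h1 : ∑ i ∈ Finset.range (M + 1), (u 0)⁻¹ * x i * u 0 =
          (u 0)⁻¹ * (∑ i ∈ Finset.range (M + 1), x i) * u 0 := by
        rw [Finset.mul_sum, Finset.sum_mul]
      change SUpp (∑ i ∈ Finset.range (M + 1), (u 0)⁻¹ * x i * u 0)
      rw [h1]
      exact hsum.conj hu0
  intro i hi
  have h1 : (u 0)⁻¹ * x i * u 0 = 0 := D.all i hi
  calc x i = (u 0 * (u 0)⁻¹) * x i * (u 0 * (u 0)⁻¹) := by
        rw [hi2, one_mul, mul_one]
    _ = u 0 * ((u 0)⁻¹ * x i * u 0) * (u 0)⁻¹ := by noncomm_ring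
    _ = 0 := by rw [h1]; simp

/-- **Theorem T'.** The form without inverses. -/
theorem theoremT' {n M : ℕ} {g x : ℕ → Matrix (Fin n) (Fin n) ℝ} (huni : ∀ i ≤ M, Uni (g i))
    (hpos : ∀ i < M, ∃ a, Pos n a ∧ g (i + 1) = g i * a)
    (hslow : ∀ i ≤ M, ∃ y, SLow y ∧ x i * g i = g i * y)
    (hmul : ∀ i ≤ M, ∀ j ≤ M, x i * x j = 0)
    (hsum : ∑ i ∈ Finset.range (M + 1), x i = 0) : ∀ i ≤ M, x i = 0 := by
  refine theoremT huni (fun i hi => ?_) (fun i hi => ?_) hmul ?_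
  · obtain ⟨a, ha, he⟩ := hpos i hi
    rw [he, ← mul_assoc, Matrix.nonsing_inv_mul _ (huni i hi.le).isUnit, one_mul]
    exact ha
  · obtain ⟨y, hy, he⟩ := hslow i hi
    rw [mul_assoc, he, ← mul_assoc, Matrix.nonsing_inv_mul _ (huni i hi).isUnit, one_mul]
    exact hy
  · rw [hsum]
    intro i j _
    rfl

end Pool.TPT
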