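import Pool.Agent.TPT.Minor

/-! Limits of positive matrices. -/

namespace Pool.TPT

open Matrix Filter Topology

theorem lim_bdd {α : Type*} (U : Ultrafilter α) {f : α → ℝ} {a b : ℝ}
    (h : ∀ᶠ x in (U : Filter α), f x ∈ Set.Icc a b) : ∃ L, Tendsto f U (𝓝 L) := by
  have h1 : (U.map f : Filter ℝ) ≤ 𝓟 (Set.Icc a b) := by
    rw [Filter.le_principal_iff]
    exact h
  obtain ⟨L, -, hL⟩ := isCompact_Icc.ultrafilter_le_nhds (U.map f) h1
  exact ⟨L, hL⟩

theorem tendsto_entry {α : Type*} {l : Filter α} {m n : Type*} {u : α → Matrix m n ℝ}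
    {L : Matrix m n ℝ} : Tendsto u l (𝓝 L) ↔ ∀ i j, Tendsto (fun a => u a i j) l (𝓝 (L i j)) := by
  constructor
  · intro h i j
    exact tendsto_pi_nhds.1 (tendsto_pi_nhds.1 h i) j
  · intro h
    exact tendsto_pi_nhds.2 fun i => tendsto_pi_nhds.2 fun j => h i j

theorem tendsto_shp {α : Type*} {l : Filter α} {n : ℕ} {w : α → Matrix (Fin n) (Fin n) ℝ}
    {w' : Matrix (Fin n) (Fin n) ℝ} (hw : ∀ i j, Tendsto (fun a => w a i j) l (𝓝 (w' i j)))
    (i : Fin (n + 1)) (j : Fin n) : Tendsto (fun a => shp (w a) i j) l (𝓝 (shp w' i j)) := by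
  refine Fin.cases ?_ (fun i => ?_) i
  · simp only [shp_zero]; exact tendsto_const_nhds
  · simp only [shp_succ]; exact hw i j

theorem tendsto_scp {α : Type*} {l : Filter α} {n : ℕ} {b : α → Fin n → ℝ} {b' : Fin n → ℝ}
    {w : α → Matrix (Fin n) (Fin n) ℝ}
    {w' : Matrix (Fin n) (Fin n) ℝ} (hb : ∀ i, Tendsto (fun a => b a i) l (𝓝 (b' i)))
    (hw : ∀ i j, Tendsto (fun a => w a i j) l (𝓝 (w' i j)))
    (i : Fin (n + 1)) (j : Fin n) :
    Tendsto (fun a => scp (b a) (w a) i j) l (𝓝 (scp b' w' i j)) := by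
  refine Fin.lastCases ?_ (fun i => ?_) i
  · simp only [scp_last]; exact tendsto_const_nhds
  · simp only [scp_castSucc]; exact (hb i).mul (hw i j)

theorem tendsto_step {α : Type*} {l : Filter α} {n : ℕ} {b : α → Fin n → ℝ} {b' : Fin n → ℝ}
    {w : α → Matrix (Fin n) (Fin n) ℝ}
    {w' : Matrix (Fin n) (Fin n) ℝ} (hb : ∀ i, Tendsto (fun a => b a i) l (𝓝 (b' i)))
    (hw : ∀ i j, Tendsto (fun a => w a i j) l (𝓝 (w' i j))) (i j : Fin (n + 1)) :
    Tendsto (fun a => step (b a) (w a) i j) l (𝓝 (step b' w' i j)) := by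
  refine Fin.cases ?_ (fun j => ?_) j
  · refine Fin.cases ?_ (fun i => ?_) i
    · simp only [step_zero_zero]; exact tendsto_const_nhds
    · simp only [step_succ_zero]; exact tendsto_const_nhds
  · simp only [step_succ]
    exact (tendsto_shp hw i j).add (tendsto_scp hb hw i j)

theorem uni_lim {α : Type*} {l : Filter α} [l.NeBot] {n : ℕ} {u : α → Matrix (Fin n) (Fin n) ℝ}
    {L : Matrix (Fin n) (Fin n) ℝ} (h : ∀ᶠ a in l, Uni (u a))
    (hL : ∀ i j, Tendsto (fun a => u a i j) l (𝓝 (L i j))) : Uni L := by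
  refine ⟨fun i => ?_, fun i j hij => ?_⟩
  · refine tendsto_nhds_unique (hL i i) ?_
    refine tendsto_const_nhds.congr' ?_
    filter_upwards [h] with a ha using (ha.1 i).symm
  · refine tendsto_nhds_unique (hL i j) ?_
    refine tendsto_const_nhds.congr' ?_
    filter_upwards [h] with a ha using (ha.2 i j hij).symm

/-- A limit of positive matrices with nonzero corner minors is positive. -/
theorem pos_lim {α : Type*} (U : Ultrafilter α) : ∀ {n : ℕ} (u : α → Matrix (Fin n) (Fin n) ℝ)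
    (L : Matrix (Fin n) (Fin n) ℝ), (∀ᶠ a in (U : Filter α), Pos n (u a)) →
    (∀ i j, Tendsto (fun a => u a i j) U (𝓝 (L i j))) →
    (∀ j (hj : j + 1 ≤ n), nm j hj ⟨j, by omega⟩ L ≠ 0) → Pos n L
  | 0, _, _, _, _, _ => trivial
  | n + 1, u, L, hu, hL, hc => by
    have hex : ∀ a, ∃ (b : Fin n → ℝ) (w : Matrix (Fin n) (Fin n) ℝ), Pos (n + 1) (u a) →
        (∀ i, 0 < b i) ∧ Pos n w ∧ u a = step b w := by
      intro a
      by_cases h : Pos (n + 1) (u a)
      · obtain ⟨b, w, h⟩ := h
        exact ⟨b, w, fun _ => h⟩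
      · exact ⟨0, 0, fun h' => absurd h' h⟩
    choose b w hbw using hex
    have hb : ∀ i, ∃ c, Tendsto (fun a => b a i) U (𝓝 c) := by
      intro i
      refine lim_bdd U (a := 0) (b := L i.castSucc i.succ + 1) ?_
      have h1 : ∀ᶠ a in (U : Filter α), u a i.castSucc i.succ < L i.castSucc i.succ + 1 :=
        (hL i.castSucc i.succ).eventually_lt_const (by linarith)
      filter_upwards [hu, h1] with a ha ha1
      obtain ⟨h2, h3, h4⟩ := hbw a ha
      refine ⟨(h2 i).le, ?_⟩
      have := b_le (b := b a) h3 i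
      rw [← h4] at this
      linarith
    have hw : ∀ i j, ∃ c, Tendsto (fun a => w a i j) U (𝓝 c) := by
      intro i j
      refine lim_bdd U (a := 0) (b := L i.succ j.succ + 1) ?_
      have h1 : ∀ᶠ a in (U : Filter α), u a i.succ j.succ < L i.succ j.succ + 1 :=
        (hL i.succ j.succ).eventually_lt_const (by linarith)
      filter_upwards [hu, h1] with a ha ha1
      obtain ⟨h2, h3, h4⟩ := hbw a ha
      refine ⟨h3.nonneg i j, ?_⟩
      have := w_le h2 h3 i j
      rw [← h4] at this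
      linarith
    choose b' hb' using hb
    choose w' hw' using hw
    have hLe : L = step b' w' := by
      ext i j
      refine tendsto_nhds_unique (hL i j) ?_
      refine (tendsto_step (w' := w') hb' hw' i j).congr' ?_
      filter_upwards [hu] with a ha
      rw [(hbw a ha).2.2]
    have hpw : ∀ᶠ a in (U : Filter α), Pos n (w a) := by
      filter_upwards [hu] with a ha using (hbw a ha).2.1
    have huw : Uni w' := uni_lim (l := (U : Filter α)) (u := w)
      (by filter_upwards [hpw] with a ha using ha.uni) hw'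
    have hb0 : ∀ i, 0 ≤ b' i := fun i => ge_of_tendsto (hb' i)
      (by filter_upwards [hu] with a ha using ((hbw a ha).1 i).le)
    have hcw : ∀ j (hj : j + 1 ≤ n), (∏ a : Fin (j + 1), b' ⟨a, by omega⟩) ≠ 0 ∧
        nm j hj ⟨j, by omega⟩ w' ≠ 0 := by
      intro j hj
      have := hc j (by omega)
      rw [hLe, nm_step_corner b' w' j hj] at this
      exact ⟨left_ne_zero_of_mul this, right_ne_zero_of_mul this⟩
    have hb1 : ∀ i, 0 < b' i := by
      intro i
      refine lt_of_le_of_ne (hb0 i) fun h0 => ?_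
      have h1 := (hcw i.val i.2).1
      refine h1 (Finset.prod_eq_zero (i := Fin.last i.val) (Finset.mem_univ _) ?_)
      exact h0.symm
    exact ⟨b', w', hb1, pos_lim U w w' hpw hw' fun j hj => (hcw j hj).2, hLe⟩

end Pool.TPT
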