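import Pool.Agent.TPT.Lim

/-! Positive matrices are open among unipotent matrices. -/

namespace Pool.TPT

open Matrix Filter Topology

section
variable {n : ℕ}

/-- the next bidiagonal entry -/
def bst (u : Matrix (Fin (n + 1)) (Fin (n + 1)) ℝ) (i : Fin n) (p : Fin n → ℝ) : ℝ :=
  u i.castSucc i.succ - p i

/-- the rows, by elimination -/
noncomputable def R (u : Matrix (Fin (n + 1)) (Fin (n + 1)) ℝ) : ℕ → (Fin n → ℝ)
  | 0 => 0
  | i + 1 => if h : i < n then
      fun j => (u (Fin.castSucc ⟨i, h⟩) j.succ - R u i j) / bst u ⟨i, h⟩ (R u i) else 0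

theorem R_succ (u : Matrix (Fin (n + 1)) (Fin (n + 1)) ℝ) (i : Fin n) (j : Fin n) :
    R u (i.val + 1) j = (u i.castSucc j.succ - R u i.val j) / bst u i (R u i.val) := by
  rw [R, dif_pos i.2]

/-- the smaller matrix -/
noncomputable def W (u : Matrix (Fin (n + 1)) (Fin (n + 1)) ℝ) : Matrix (Fin n) (Fin n) ℝ :=
  Matrix.of fun i j => R u (i.val + 1) j

theorem shp_castSucc (w : Matrix (Fin n) (Fin n) ℝ) (i : ℕ) (hi : i + 1 < n) (j : Fin n) :
    shp w (Fin.castSucc ⟨i + 1, hi⟩) j = w ⟨i, by omega⟩ j := by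
  have : (Fin.castSucc ⟨i + 1, hi⟩ : Fin (n + 1)) = Fin.succ ⟨i, by omega⟩ := rfl
  rw [this, shp_succ]

theorem shp_W (u : Matrix (Fin (n + 1)) (Fin (n + 1)) ℝ) (i : Fin n) (j : Fin n) :
    shp (W u) i.castSucc j = R u i.val j := by
  obtain ⟨i, hi⟩ := i
  cases i with
  | zero => rfl
  | succ i => rw [shp_castSucc]; rfl

theorem R_exact {b : Fin n → ℝ} {w : Matrix (Fin n) (Fin n) ℝ} (hb : ∀ i, b i ≠ 0) (hw : Uni w)
    (i : ℕ) (hi : i < n) : (∀ j, R (step b w) i j = shp w (Fin.castSucc ⟨i, hi⟩) j) ∧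
      bst (step b w) ⟨i, hi⟩ (R (step b w) i) = b ⟨i, hi⟩ ∧
      ∀ j, R (step b w) (i + 1) j = w ⟨i, hi⟩ j := by
  induction i with
  | zero =>
    have h1 : ∀ j, R (step b w) 0 j = shp w (Fin.castSucc ⟨0, hi⟩) j := fun j => rfl
    have h2 : bst (step b w) ⟨0, hi⟩ (R (step b w) 0) = b ⟨0, hi⟩ := by
      rw [bst, step_succ, h1, scp_castSucc, hw.1]; ring
    refine ⟨h1, h2, fun j => ?_⟩
    have := R_succ (step b w) ⟨0, hi⟩ j
    simp only at this
    rw [this, h2, step_succ, h1, scp_castSucc, add_sub_cancel_left,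
      mul_div_cancel_left₀ _ (hb _)]
  | succ i ih =>
    obtain ⟨-, -, h3⟩ := ih (by omega)
    have h1 : ∀ j, R (step b w) (i + 1) j = shp w (Fin.castSucc ⟨i + 1, hi⟩) j := fun j => by
      rw [h3, shp_castSucc]
    have h2 : bst (step b w) ⟨i + 1, hi⟩ (R (step b w) (i + 1)) = b ⟨i + 1, hi⟩ := by
      rw [bst, step_succ, h1, scp_castSucc, hw.1]; ring
    refine ⟨h1, h2, fun j => ?_⟩
    have := R_succ (step b w) ⟨i + 1, hi⟩ j
    simp only at this
    rw [this, h2, step_succ, h1, scp_castSucc, add_sub_cancel_left,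
      mul_div_cancel_left₀ _ (hb _)]

theorem tendsto_R {b : Fin n → ℝ} {w : Matrix (Fin n) (Fin n) ℝ} (hb : ∀ i, b i ≠ 0) (hw : Uni w)
    (i : ℕ) (hi : i ≤ n) (j : Fin n) :
    Tendsto (fun u => R u i j) (𝓝 (step b w)) (𝓝 (R (step b w) i j)) := by
  induction i generalizing j with
  | zero => exact tendsto_const_nhds
  | succ i ih =>
    have hu : ∀ k l, Tendsto (fun u : Matrix (Fin (n + 1)) (Fin (n + 1)) ℝ => u k l)
        (𝓝 (step b w)) (𝓝 (step b w k l)) := fun k l => tendsto_entry.1 tendsto_id k l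
    have h1 : ∀ u : Matrix (Fin (n + 1)) (Fin (n + 1)) ℝ, R u (i + 1) j =
        (u (Fin.castSucc ⟨i, hi⟩) j.succ - R u i j) / bst u ⟨i, hi⟩ (R u i) :=
      fun u => R_succ u ⟨i, hi⟩ j
    simp only [h1]
    refine ((hu _ _).sub (ih (by omega) j)).div ?_ ?_
    · exact (hu _ _).sub (ih (by omega) _)
    · rw [(R_exact hb hw i hi).2.1]; exact hb _

theorem R_uni {u : Matrix (Fin (n + 1)) (Fin (n + 1)) ℝ} (hu : Uni u)
    (hb : ∀ i : Fin n, bst u i (R u i.val) ≠ 0) (i : ℕ) (hi : i < n) :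
    (∀ j : Fin n, j.val < i → R u (i + 1) j = 0) ∧ R u (i + 1) ⟨i, hi⟩ = 1 := by
  have hdiag : ∀ (i : ℕ) (hi : i < n), R u (i + 1) ⟨i, hi⟩ = 1 := by
    intro i hi
    have := R_succ u ⟨i, hi⟩ ⟨i, hi⟩
    simp only at this
    rw [this, bst, div_self]
    exact hb ⟨i, hi⟩
  refine ⟨?_, hdiag i hi⟩
  induction i with
  | zero => intro j hj; omega
  | succ i ih =>
    intro j hj
    have := R_succ u ⟨i + 1, hi⟩ j
    simp only at this
    rw [this]
    rcases Nat.lt_or_ge j.val i with h | h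
    · rw [ih (by omega) j h, hu.2 _ _ (by rw [Fin.lt_def]; simp; omega)]
      simp
    · have hji : j.val = i := by omega
      have h1 : j = ⟨i, by omega⟩ := Fin.ext hji
      have h2 : j.succ = Fin.castSucc ⟨i + 1, hi⟩ := by ext; simp; omega
      rw [h2, hu.1, h1, hdiag i (by omega)]
      simp

theorem eq_step {u : Matrix (Fin (n + 1)) (Fin (n + 1)) ℝ} (hu : Uni u)
    (hb : ∀ i : Fin n, bst u i (R u i.val) ≠ 0) :
    u = step (fun i => bst u i (R u i.val)) (W u) := by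
  ext i j
  refine Fin.cases ?_ (fun j => ?_) j
  · refine Fin.cases ?_ (fun i => ?_) i
    · rw [step_zero_zero, hu.1]
    · rw [step_succ_zero, hu.2 _ _ (by simp)]
  · rw [step_succ]
    refine Fin.lastCases ?_ (fun i => ?_) i
    · rw [scp_last, add_zero]
      have hn : 0 < n := j.pos
      have h1 : (Fin.last n) = Fin.succ ⟨n - 1, by omega⟩ := by ext; simp; omega
      rw [h1, shp_succ, W, Matrix.of_apply]
      obtain ⟨h2, h3⟩ := R_uni hu hb (n - 1) (by omega)
      rcases Nat.lt_or_ge j.val (n - 1) with h | h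
      · rw [h2 j h, hu.2 _ _ (by rw [Fin.lt_def]; simp; omega)]
      · have h4 : j = ⟨n - 1, by omega⟩ := by ext; simp; omega
        rw [h4, h3, hu.1]
    · rw [scp_castSucc, shp_W, W, Matrix.of_apply, R_succ, mul_div_cancel₀ _ (hb i)]
      ring

theorem uni_W {u : Matrix (Fin (n + 1)) (Fin (n + 1)) ℝ} (hu : Uni u)
    (hb : ∀ i : Fin n, bst u i (R u i.val) ≠ 0) : Uni (W u) :=
  ⟨fun i => (R_uni hu hb i.val i.2).2, fun i j hij => (R_uni hu hb i.val i.2).1 j hij⟩

end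

/-- Positive matrices are open among unipotent matrices. -/
theorem pos_open : ∀ {n : ℕ} {u0 : Matrix (Fin n) (Fin n) ℝ}, Pos n u0 →
    ∀ᶠ u in 𝓝 u0, Uni u → Pos n u
  | 0, _, _ => Filter.Eventually.of_forall fun _ _ => trivial
  | n + 1, u0, ⟨b, w, hb, hw, h⟩ => by
    subst h
    have hb' : ∀ i, b i ≠ 0 := fun i => (hb i).ne'
    have hu : ∀ k l, Tendsto (fun u : Matrix (Fin (n + 1)) (Fin (n + 1)) ℝ => u k l)
        (𝓝 (step b w)) (𝓝 (step b w k l)) := fun k l => tendsto_entry.1 tendsto_id k l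
    have h1 : ∀ i : Fin n, ∀ᶠ u in 𝓝 (step b w), 0 < bst u i (R u i.val) := by
      intro i
      have h2 : Tendsto (fun u => bst u i (R u i.val)) (𝓝 (step b w)) (𝓝 (b i)) := by
        rw [← (R_exact hb' hw.uni i.val i.2).2.1]
        exact (hu _ _).sub (tendsto_R hb' hw.uni i.val i.2.le i)
      exact h2.eventually_const_lt (hb i)
    have h2 : Tendsto W (𝓝 (step b w)) (𝓝 w) := by
      rw [tendsto_entry]
      intro i j
      rw [← (R_exact hb' hw.uni i.val i.2).2.2 j]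
      exact tendsto_R hb' hw.uni (i.val + 1) i.2 j
    have h3 := h2.eventually (pos_open hw)
    filter_upwards [Filter.eventually_all.2 h1, h3] with u hu1 hu2 hu3
    have hb2 : ∀ i : Fin n, bst u i (R u i.val) ≠ 0 := fun i => (hu1 i).ne'
    exact ⟨_, _, hu1, hu2 (uni_W hu3 hb2), eq_step hu3 hb2⟩

end Pool.TPT
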