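import Pool.Agent.TPC.Defs
import Pool.Agent.TPT.Open
import Pool.Agent.TPT.Lim

/-! Row MUL: products, Pascal matrices, connectedness. -/

namespace Pool.TPT

open Matrix Filter Topology

variable {n : ℕ}

theorem uni_one : Uni (1 : Matrix (Fin n) (Fin n) ℝ) :=
  ⟨fun i => Matrix.one_apply_eq i, fun _ _ h => Matrix.one_apply_ne h.ne'⟩

theorem uni_mul {u v : Matrix (Fin n) (Fin n) ℝ} (hu : Uni u) (hv : Uni v) : Uni (u * v) := by
  have hz : ∀ i j k : Fin n, j < i → u i k * v k j = 0 := by
    intro i j k hji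
    rcases lt_or_ge k i with h | h
    · rw [hu.2 i k h, zero_mul]
    · rw [hv.2 k j (lt_of_lt_of_le hji h), mul_zero]
  refine ⟨fun i => ?_, fun i j hji => ?_⟩
  · rw [Matrix.mul_apply, Finset.sum_eq_single i]
    · rw [hu.1, hv.1, mul_one]
    · intro k _ hk
      rcases lt_or_gt_of_ne hk with h | h
      · rw [hu.2 i k h, zero_mul]
      · rw [hv.2 k i h, mul_zero]
    · exact fun h => absurd (Finset.mem_univ i) h
  · rw [Matrix.mul_apply]
    exact Finset.sum_eq_zero fun k _ => hz i j k hji

theorem Uni.isUnit {u : Matrix (Fin n) (Fin n) ℝ} (hu : Uni u) : IsUnit u.det := by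
  rw [hu.det]
  exact isUnit_one

theorem uni_inv {u : Matrix (Fin n) (Fin n) ℝ} (hu : Uni u) : Uni u⁻¹ := by
  have hbt : BlockTriangular u id := fun i j h => hu.2 i j h
  let _ : Invertible u := u.invertibleOfIsUnitDet hu.isUnit
  have h1 : BlockTriangular u⁻¹ id := blockTriangular_inv_of_blockTriangular hbt
  refine ⟨fun i => ?_, fun i j hij => h1 hij⟩
  have h2 : (u * u⁻¹) i i = 1 := by
    rw [Matrix.mul_nonsing_inv u hu.isUnit, Matrix.one_apply_eq]
  rw [Matrix.mul_apply, Finset.sum_eq_single i] at h2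
  · rwa [hu.1, one_mul] at h2
  · intro k _ hk
    rcases lt_or_gt_of_ne hk with h | h
    · rw [hu.2 i k h, zero_mul]
    · rw [h1 h, mul_zero]
  · exact fun h => absurd (Finset.mem_univ i) h

/-- elementary matrices -/
def El (n i : ℕ) (t : ℝ) : Matrix (Fin n) (Fin n) ℝ :=
  Matrix.of fun a b => (if a = b then 1 else 0) + (if (a : ℕ) = i ∧ (b : ℕ) = i + 1 then t else 0)

theorem uni_El (i : ℕ) (t : ℝ) : Uni (El n i t) := by
  refine ⟨fun a => ?_, fun a b h => ?_⟩
  · have h1 : ¬ ((a : ℕ) = i ∧ (a : ℕ) = i + 1) := by omega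
    simp [El, h1]
  · have h1 : a ≠ b := h.ne'
    have h2 : ¬ ((a : ℕ) = i ∧ (b : ℕ) = i + 1) := by
      rw [Fin.lt_def] at h; omega
    simp [El, h1, h2]

theorem El_mul_apply (i : ℕ) (t : ℝ) (u : Matrix (Fin n) (Fin n) ℝ) (a c : Fin n) :
    (El n i t * u) a c = u a c +
      (if h : (a : ℕ) = i ∧ i + 1 < n then t * u ⟨i + 1, h.2⟩ c else 0) := by
  rw [Matrix.mul_apply]
  simp only [El, Matrix.of_apply, add_mul, Finset.sum_add_distrib]
  congr 1
  · simp
  · split_ifs with h
    · rw [Finset.sum_eq_single (⟨i + 1, h.2⟩ : Fin n)]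
      · rw [if_pos ⟨h.1, rfl⟩]
      · intro b _ hb
        rw [if_neg, zero_mul]
        rintro ⟨-, h2⟩
        exact hb (Fin.ext h2)
      · exact fun h' => absurd (Finset.mem_univ _) h'
    · refine Finset.sum_eq_zero fun b _ => ?_
      rw [if_neg, zero_mul]
      rintro ⟨h1, h2⟩
      exact h ⟨h1, by have := b.2; omega⟩

theorem El_zero (i : ℕ) : El n i 0 = 1 := by
  ext a b
  simp [El, Matrix.one_apply]

theorem continuous_El (i : ℕ) : Continuous (El n i) := by
  refine continuous_pi fun a => continuous_pi fun b => ?_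
  simp only [El, Matrix.of_apply]
  split_ifs <;> fun_prop

/-- corner minors do not decrease -/
theorem nm_El {u : Matrix (Fin n) (Fin n) ℝ} (hu : Pos n u) (i : ℕ) {t : ℝ} (ht : 0 ≤ t) (j : ℕ)
    (hj : j + 1 ≤ n) : nm j hj ⟨j, by omega⟩ u ≤ nm j hj ⟨j, by omega⟩ (El n i t * u) := by
  have hrow : ∀ a : Fin (j + 1), ((nrow j hj ⟨j, by omega⟩ a : Fin n) : ℕ) = a := by
    intro a
    refine Fin.lastCases ?_ (fun a => ?_) a
    · rw [nrow_last]; simp
    · rw [nrow_castSucc]; simp
  set M := u.submatrix (nrow j hj ⟨j, by omega⟩) (lastm hj) with hM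
  rcases lt_trichotomy i j with hij | hij | hij
  · -- a row operation
    have h1 : (El n i t * u).submatrix (nrow j hj ⟨j, by omega⟩) (lastm hj) =
        M.updateRow ⟨i, by omega⟩ (M ⟨i, by omega⟩ + t • M ⟨i + 1, by omega⟩) := by
      ext a c
      rw [Matrix.submatrix_apply, El_mul_apply]
      by_cases ha : a = ⟨i, by omega⟩
      · subst ha
        rw [Matrix.updateRow_self, dif_pos ⟨hrow _, by omega⟩]
        simp only [Pi.add_apply, Pi.smul_apply, smul_eq_mul, hM, Matrix.submatrix_apply]
        congr 3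
        exact Fin.ext (hrow ⟨i + 1, by omega⟩).symm
      · rw [Matrix.updateRow_ne ha, dif_neg, add_zero]
        · rfl
        · rintro ⟨h2, -⟩
          exact ha (Fin.ext ((hrow a).symm.trans h2))
    rw [nm, nm, h1, Matrix.det_updateRow_add_smul_self]
    intro h
    have := congrArg Fin.val h
    simp at this
  · subst hij
    by_cases hin : i + 1 < n
    · have h1 : (El n i t * u).submatrix (nrow i hj ⟨i, by omega⟩) (lastm hj) =
          M.updateRow (Fin.last i) (M (Fin.last i) +
            t • fun c => u ⟨i + 1, hin⟩ (lastm hj c)) := by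
        ext a c
        rw [Matrix.submatrix_apply, El_mul_apply]
        by_cases ha : a = Fin.last i
        · subst ha
          rw [Matrix.updateRow_self, dif_pos ⟨by rw [hrow]; simp, hin⟩]
          simp [hM]
        · rw [Matrix.updateRow_ne ha, dif_neg, add_zero]
          · rfl
          · rintro ⟨h2, -⟩
            exact ha (Fin.ext (by rw [← hrow, h2]; simp))
      have h2 : (M.updateRow (Fin.last i) fun c => u ⟨i + 1, hin⟩ (lastm hj c)) =
          u.submatrix (nrow i hj ⟨i + 1, hin⟩) (lastm hj) := by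
        ext a c
        refine Fin.lastCases ?_ (fun a => ?_) a
        · rw [Matrix.updateRow_self, Matrix.submatrix_apply, nrow_last]
        · rw [Matrix.updateRow_ne (Fin.castSucc_lt_last a).ne, hM, Matrix.submatrix_apply,
            Matrix.submatrix_apply, nrow_castSucc, nrow_castSucc]
      rw [nm, nm, h1, Matrix.det_updateRow_add, Matrix.updateRow_eq_self,
        Matrix.det_updateRow_smul, h2]
      exact le_add_of_nonneg_right (mul_nonneg ht (hu.nm_nonneg i hj ⟨i + 1, hin⟩))
    · have h1 : El n i t * u = u := by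
        ext a c
        rw [El_mul_apply, dif_neg (fun h => hin h.2), add_zero]
      rw [h1]
  · have h1 : (El n i t * u).submatrix (nrow j hj ⟨j, by omega⟩) (lastm hj) = M := by
      ext a c
      rw [Matrix.submatrix_apply, El_mul_apply, dif_neg, add_zero]
      · rfl
      · rintro ⟨h2, -⟩
        rw [hrow] at h2
        have := a.2
        omega
    rw [nm, nm, h1]

theorem Pos.el {u : Matrix (Fin n) (Fin n) ℝ} (hu : Pos n u) (i : ℕ) {t : ℝ} (ht : 0 ≤ t) :
    Pos n (El n i t * u) := by
  have hc : Continuous fun s : ℝ => El n i s * u := (continuous_El i).matrix_mul continuous_const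
  have hI : Set.Icc 0 t ⊆ {s : ℝ | Pos n (El n i s * u)} := by
    refine IsClosed.Icc_subset_of_forall_exists_gt ?_ ?_ ?_
    · rw [isClosed_iff_ultrafilter]
      intro x U hU hS
      have hxI : x ∈ Set.Icc 0 t := isClosed_Icc.mem_of_tendsto (b := (U : Filter ℝ)) (f := id)
        hU (mem_of_superset hS Set.inter_subset_right)
      refine ⟨?_, hxI⟩
      refine pos_lim U (fun s => El n i s * u) _ (mem_of_superset hS fun s hs => hs.1) ?_ ?_
      · exact tendsto_entry.1 ((hc.tendsto x).mono_left hU)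
      · intro j hj
        exact ((hu.nm_pos j hj).trans_le (nm_El hu i hxI.1 j hj)).ne'
    · show Pos n (El n i 0 * u)
      rwa [El_zero, one_mul]
    · rintro x ⟨hx, -⟩ y hy
      have h1 : ∀ᶠ s in 𝓝 x, Pos n (El n i s * u) := by
        have h2 := (hc.tendsto x).eventually (pos_open hx)
        filter_upwards [h2] with s hs
        exact hs (uni_mul (uni_El i s) hu.uni)
      have h3 : ∀ᶠ s in 𝓝[>] x, Pos n (El n i s * u) ∧ s ∈ Set.Ioc x y :=
        (h1.filter_mono nhdsWithin_le_nhds).and (Ioc_mem_nhdsGT hy)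
      obtain ⟨s, hs1, hs2⟩ := h3.exists
      exact ⟨s, hs1, hs2⟩
  exact hI ⟨ht, le_rfl⟩

/-- the monoid generated by the elementary matrices -/
def Mo (n : ℕ) : Submonoid (Matrix (Fin n) (Fin n) ℝ) :=
  Submonoid.closure {g | ∃ (i : ℕ) (t : ℝ), 0 ≤ t ∧ g = El n i t}

theorem step_zero_one : step (0 : Fin n → ℝ) (1 : Matrix (Fin n) (Fin n) ℝ) = 1 := by
  ext i j
  refine Fin.cases ?_ (fun j => ?_) j
  · refine Fin.cases ?_ (fun i => ?_) i
    · simp
    · rw [step_succ_zero, Matrix.one_apply_ne (Fin.succ_ne_zero i)]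
  · rw [step_succ]
    have h1 : scp (0 : Fin n → ℝ) (1 : Matrix (Fin n) (Fin n) ℝ) i j = 0 := by
      refine Fin.lastCases ?_ (fun i => ?_) i <;> simp
    rw [h1, add_zero]
    refine Fin.cases ?_ (fun i => ?_) i
    · rw [shp_zero, Matrix.one_apply_ne (Fin.succ_ne_zero j).symm]
    · rw [shp_succ, Matrix.one_apply, Matrix.one_apply]
      simp [Fin.succ_inj]

theorem step_zero_succ (w : Matrix (Fin n) (Fin n) ℝ) (i : Fin (n + 1)) (j : Fin n) :
    step (0 : Fin n → ℝ) w i j.succ = shp w i j := by
  rw [step_succ]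
  have h1 : scp (0 : Fin n → ℝ) w i j = 0 := by
    refine Fin.lastCases ?_ (fun i => ?_) i <;> simp
  rw [h1, add_zero]

theorem step_zero_mul (g w : Matrix (Fin n) (Fin n) ℝ) :
    step (0 : Fin n → ℝ) (g * w) = step 0 g * step 0 w := by
  ext i j
  rw [Matrix.mul_apply, Fin.sum_univ_succ]
  refine Fin.cases ?_ (fun j => ?_) j
  · refine Fin.cases ?_ (fun i => ?_) i
    · simp
    · simp
  · simp only [step_zero_succ]
    refine Fin.cases ?_ (fun i => ?_) i
    · simp only [shp_zero, step_zero_succ, shp_succ, zero_mul, mul_zero, Finset.sum_const_zero,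
        add_zero]
    · simp only [shp_zero, shp_succ, step_zero_succ, mul_zero, zero_add, Matrix.mul_apply]

theorem step_zero_El (i : ℕ) (t : ℝ) :
    step (0 : Fin n → ℝ) (El n i t) = El (n + 1) (i + 1) t := by
  ext a b
  refine Fin.cases ?_ (fun b => ?_) b
  · refine Fin.cases ?_ (fun a => ?_) a
    · simp [El]
    · simp [El, Fin.succ_ne_zero]
  · rw [step_zero_succ]
    refine Fin.cases ?_ (fun a => ?_) a
    · simp [El, (Fin.succ_ne_zero b).symm]
    · simp [El, Fin.succ_inj]

theorem step_El (b : Fin n → ℝ) (w : Matrix (Fin n) (Fin n) ℝ) (m : ℕ) (hm : m < n) :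
    step (fun i => if (i : ℕ) < m + 1 then b i else 0) w =
      El (n + 1) m (b ⟨m, hm⟩) * step (fun i => if (i : ℕ) < m then b i else 0) w := by
  ext a c
  rw [El_mul_apply]
  refine Fin.cases ?_ (fun c => ?_) c
  · refine Fin.cases ?_ (fun a => ?_) a
    · simp [step]
    · simp [step]
  · simp only [step_succ]
    rw [add_assoc]
    congr 1
    refine Fin.lastCases ?_ (fun a => ?_) a
    · rw [scp_last, scp_last, dif_neg, add_zero]
      simp only [Fin.val_last]
      omega
    · rw [scp_castSucc, scp_castSucc]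
      by_cases ha : (a : ℕ) = m
      · have ha' : a = ⟨m, hm⟩ := Fin.ext ha
        rw [dif_pos ⟨by simpa using ha, by omega⟩, if_pos (by omega), if_neg (by omega)]
        have h1 : (⟨m + 1, by omega⟩ : Fin (n + 1)) = (⟨m, hm⟩ : Fin n).succ := rfl
        rw [h1, shp_succ, ha']
        have h2 : scp (fun i : Fin n => if (i : ℕ) < m then b i else 0) w (⟨m, hm⟩ : Fin n).succ c
            = 0 := by
          refine Fin.lastCases (motive := fun k => k = (⟨m, hm⟩ : Fin n).succ →
            scp (fun i : Fin n => if (i : ℕ) < m then b i else 0) w k c = 0) ?_ ?_ _ rfl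
          · intro _; simp
          · intro k hk
            rw [scp_castSucc, if_neg, zero_mul]
            have := congrArg Fin.val hk
            simp at this
            omega
        rw [h2]
        ring
      · rw [dif_neg (fun h => ha (by simpa using h.1)), add_zero]
        by_cases h2 : (a : ℕ) < m
        · rw [if_pos (by omega), if_pos h2]
        · rw [if_neg (by omega), if_neg h2]

theorem mo_step {w : Matrix (Fin n) (Fin n) ℝ} (hw : w ∈ Mo n) (b : Fin n → ℝ) (hb : ∀ i, 0 ≤ b i) :
    step b w ∈ Mo (n + 1) := by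
  have h0 : step (0 : Fin n → ℝ) w ∈ Mo (n + 1) := by
    refine Submonoid.closure_induction (motive := fun w _ => step (0 : Fin n → ℝ) w ∈ Mo (n + 1))
      ?_ ?_ ?_ hw
    · rintro g ⟨i, t, ht, rfl⟩
      rw [step_zero_El]
      exact Submonoid.subset_closure ⟨i + 1, t, ht, rfl⟩
    · rw [step_zero_one]
      exact one_mem _
    · intro g h _ _ hg hh
      rw [step_zero_mul]
      exact mul_mem hg hh
  have h1 : ∀ m ≤ n, step (fun i => if (i : ℕ) < m then b i else 0) w ∈ Mo (n + 1) := by
    intro m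
    induction m with
    | zero =>
      intro _
      have h2 : (fun i : Fin n => if (i : ℕ) < 0 then b i else 0) = 0 := by
        funext i
        simp
      rw [h2]
      exact h0
    | succ m ih =>
      intro hm
      rw [step_El b w m (by omega)]
      exact mul_mem (Submonoid.subset_closure ⟨m, _, hb _, rfl⟩) (ih (by omega))
  have h3 := h1 n le_rfl
  have h4 : (fun i : Fin n => if (i : ℕ) < n then b i else 0) = b := by
    funext i
    rw [if_pos i.2]
  rwa [h4] at h3

theorem Pos.mo : ∀ {n : ℕ} {u : Matrix (Fin n) (Fin n) ℝ}, Pos n u → u ∈ Mo n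
  | 0, u, _ => by
    have h : u = 1 := by ext i; exact i.elim0
    rw [h]
    exact one_mem _
  | _ + 1, _, ⟨b, _, hb, hw, h⟩ => h ▸ mo_step hw.mo b fun i => (hb i).le

theorem Pos.mo_mul {g u : Matrix (Fin n) (Fin n) ℝ} (hg : g ∈ Mo n) (hu : Pos n u) :
    Pos n (g * u) := by
  have h := Submonoid.closure_induction (motive := fun g _ => ∀ u : Matrix (Fin n) (Fin n) ℝ,
    Pos n u → Pos n (g * u)) ?_ ?_ ?_ hg
  · exact h u hu
  · rintro g ⟨i, t, ht, rfl⟩ u hu
    exact hu.el i ht
  · intro u hu
    rwa [one_mul]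
  · intro g h _ _ hg hh u hu
    rw [mul_assoc]
    exact hg _ (hh u hu)

theorem Pos.mul {u v : Matrix (Fin n) (Fin n) ℝ} (hu : Pos n u) (hv : Pos n v) : Pos n (u * v) :=
  Pos.mo_mul hu.mo hv

theorem step_Pas (t : ℝ) : step (fun _ => t) (Pool.TPC.Pas n t) = Pool.TPC.Pas (n + 1) t := by
  ext i j
  refine Fin.cases ?_ (fun j => ?_) j
  · refine Fin.cases ?_ (fun i => ?_) i
    · simp [Pool.TPC.Pas]
    · simp [Pool.TPC.Pas]
  · rw [step_succ]
    refine Fin.cases ?_ (fun i => ?_) i
    · rw [shp_zero, zero_add]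
      rcases Nat.eq_zero_or_pos n with h | h
      · subst h; exact j.elim0
      · have h0 : (0 : Fin (n + 1)) = (⟨0, h⟩ : Fin n).castSucc := rfl
        rw [h0, scp_castSucc]
        simp [Pool.TPC.Pas, pow_succ']
    · rw [shp_succ]
      refine Fin.lastCases (motive := fun k => k = i.succ → Pool.TPC.Pas n t i j +
        scp (fun _ => t) (Pool.TPC.Pas n t) k j = Pool.TPC.Pas (n + 1) t i.succ j.succ) ?_ ?_ _ rfl
      · intro hk
        rw [scp_last, add_zero]
        have hi := congrArg Fin.val hk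
        simp only [Fin.val_last, Fin.val_succ] at hi
        have hj := j.2
        simp only [Pool.TPC.Pas, Matrix.of_apply, Fin.val_succ, Nat.succ_sub_succ_eq_sub]
        rw [Nat.choose_succ_succ, Nat.choose_eq_zero_of_lt (show (j : ℕ) < (i : ℕ) + 1 by omega)]
        simp
      · intro k hk
        rw [scp_castSucc]
        have hi := congrArg Fin.val hk
        simp only [Fin.val_castSucc, Fin.val_succ] at hi
        simp only [Pool.TPC.Pas, Matrix.of_apply, Fin.val_succ, Nat.succ_sub_succ_eq_sub, hi]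
        rw [Nat.choose_succ_succ]
        push_cast
        rw [add_mul]
        congr 1
        rcases Nat.lt_or_ge (j : ℕ) ((i : ℕ) + 1) with hlt | hge
        · rw [Nat.choose_eq_zero_of_lt hlt]
          simp
        · rw [mul_left_comm, ← pow_succ']
          congr 2
          omega

theorem pos_Pas {n : ℕ} {t : ℝ} (ht : 0 < t) : Pos n (Pool.TPC.Pas n t) := by
  induction n with
  | zero => trivial
  | succ n ih => exact ⟨_, _, fun _ => ht, ih, (step_Pas t).symm⟩

theorem isPreconnected_Pos : ∀ {n : ℕ}, IsPreconnected {u : Matrix (Fin n) (Fin n) ℝ | Pos n u}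
  | 0 => Set.Subsingleton.isPreconnected fun u _ v _ => by ext i; exact i.elim0
  | n + 1 => by
    have h1 : IsPreconnected {b : Fin n → ℝ | ∀ i, 0 < b i} := by
      refine Convex.isPreconnected ?_
      have : {b : Fin n → ℝ | ∀ i, 0 < b i} = Set.univ.pi fun _ => Set.Ioi (0 : ℝ) := by
        ext b; simp
      rw [this]
      exact convex_pi fun _ _ => convex_Ioi 0
    have h2 := h1.prod (isPreconnected_Pos (n := n))
    have h3 : {u : Matrix (Fin (n + 1)) (Fin (n + 1)) ℝ | Pos (n + 1) u} =
        (fun p : (Fin n → ℝ) × Matrix (Fin n) (Fin n) ℝ => step p.1 p.2) ''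
          ({b : Fin n → ℝ | ∀ i, 0 < b i} ×ˢ {w | Pos n w}) := by
      ext u
      constructor
      · rintro ⟨b, w, hb, hw, rfl⟩
        exact ⟨(b, w), ⟨hb, hw⟩, rfl⟩
      · rintro ⟨⟨b, w⟩, ⟨hb, hw⟩, rfl⟩
        exact ⟨b, w, hb, hw, rfl⟩
    rw [h3]
    refine h2.image _ (Continuous.continuousOn ?_)
    rw [continuous_iff_continuousAt]
    intro p
    refine tendsto_entry.2 fun i j => ?_
    refine tendsto_step (b' := p.1) (w' := p.2) (fun i => ?_) (fun i j => ?_) i j
    · exact ((continuous_apply i).comp continuous_fst).tendsto p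
    · exact ((continuous_apply j).comp ((continuous_apply i).comp continuous_snd)).tendsto p

end Pool.TPT
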