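import Pool.Agent.TPT.Pers

/-!
# Persistence of isolated solutions of `k(n-k)` linear conditions on the Grassmannian
-/

open Set Filter Topology Metric
open scoped ContDiff

namespace Pool.Agent.TPT

section

/-- independent rows have a nonvanishing maximal minor -/
theorem exists_minor_pg {k n : ℕ} (B : Fin k → Fin n → ℂ) (hB : LinearIndependent ℂ B) :
    ∃ s : Fin k → Fin n, (Matrix.of fun a b => B a (s b)).det ≠ 0 := by
  classical
  have hr : (Matrix.of B).rank = Fintype.card (Fin k) := hB.rank_matrix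
  have h2 : ((Matrix.of B).transpose).rank = Fintype.card (Fin k) := by
    rw [Matrix.rank_transpose, hr]
  obtain ⟨f, hf1, hf2, hf3⟩ :=
    Submodule.exists_fun_fin_finrank_span_eq ℂ (Set.range ((Matrix.of B).transpose).row)
  have hcard : Module.finrank ℂ (Submodule.span ℂ (Set.range ((Matrix.of B).transpose).row)) =
      Fintype.card (Fin k) := by
    rw [← Matrix.rank_eq_finrank_span_row, h2]
  choose a ha using hf1
  let e : Fin k ≃ Fin (Module.finrank ℂ
      (Submodule.span ℂ (Set.range ((Matrix.of B).transpose).row))) :=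
    Fintype.equivOfCardEq (by rw [hcard]; simp)
  refine ⟨a ∘ e, ?_⟩
  have h1 : (((Matrix.of B).transpose).submatrix (a ∘ e) id).row = f ∘ e := by
    funext j
    rw [Function.comp_apply, ← ha (e j)]
    rfl
  have hb : LinearIndependent ℂ (((Matrix.of B).transpose).submatrix (a ∘ e) id).row := by
    rw [h1]
    exact hf3.comp _ e.injective
  have h3 : ((Matrix.of B).transpose).submatrix (a ∘ e) id =
      (Matrix.of fun t t' => B t ((a ∘ e) t')).transpose := rfl
  rw [h3] at hb
  have h4 := Matrix.linearIndependent_rows_iff_isUnit.mp hb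
  have h5 := (Matrix.isUnit_iff_isUnit_det _).mp h4
  rw [Matrix.det_transpose] at h5
  exact h5.ne_zero

theorem li_of_minor_pg {k n : ℕ} (B : Fin k → Fin n → ℂ) (s : Fin k → Fin n)
    (hs : (Matrix.of fun a b => B a (s b)).det ≠ 0) : LinearIndependent ℂ B := by
  have h4 : IsUnit (Matrix.of fun t t' => B t (s t')) :=
    (Matrix.isUnit_iff_isUnit_det _).mpr (isUnit_iff_ne_zero.mpr hs)
  have h5 := Matrix.linearIndependent_rows_iff_isUnit.mpr h4
  have h6 : LinearIndependent ℂ ((LinearMap.funLeft ℂ ℂ s) ∘ B) := h5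
  exact LinearIndependent.of_comp _ h6

/-- the chart at a frame `B0` with pivot columns `s` -/
noncomputable def chartPG {k n : ℕ} (B0 : Fin k → Fin n → ℂ) (s : Fin k → Fin n)
    (y : Fin k × {c : Fin n // c ∉ Set.range s} → ℂ) : Fin k → Fin n → ℂ := by
  classical
  exact fun a c => if h : c ∈ Set.range s then B0 a c else y (a, ⟨c, h⟩)

theorem chartPG_of_mem {k n : ℕ} (B0 : Fin k → Fin n → ℂ) (s : Fin k → Fin n)
    (y : Fin k × {c : Fin n // c ∉ Set.range s} → ℂ) (a b : Fin k) :
    chartPG B0 s y a (s b) = B0 a (s b) := by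
  simp [chartPG]

theorem chartPG_self {k n : ℕ} (B0 : Fin k → Fin n → ℂ) (s : Fin k → Fin n) :
    chartPG B0 s (fun p => B0 p.1 p.2.1) = B0 := by
  funext a c
  by_cases h : c ∈ Set.range s
  · obtain ⟨b, rfl⟩ := h
    rw [chartPG_of_mem]
  · simp [chartPG, h]

theorem contDiff_chartPG {k n : ℕ} (B0 : Fin k → Fin n → ℂ) (s : Fin k → Fin n) :
    ContDiff ℂ 1 (chartPG B0 s) := by
  classical
  rw [contDiff_pi]
  intro a
  rw [contDiff_pi]
  intro c
  by_cases h : c ∈ Set.range s
  · have : (fun y => chartPG B0 s y a c) = fun _ => B0 a c := by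
      funext y
      simp only [chartPG, dif_pos h]
    rw [this]
    exact contDiff_const
  · have : (fun y => chartPG B0 s y a c) = fun y => y (a, ⟨c, h⟩) := by
      funext y
      simp only [chartPG, dif_neg h]
    rw [this]
    exact contDiff_apply ℂ ℂ _

/-- `ev w B` is jointly smooth -/
theorem contDiff_ev_pg {k n : ℕ} : ContDiff ℂ 1
    fun p : ((Fin k → Fin n) → ℂ) × (Fin k → Fin n → ℂ) =>
      ∑ s : Fin k → Fin n, p.1 s * (Matrix.of fun a b => p.2 a (s b)).det := by
  classical
  simp only [Matrix.det_apply, Matrix.of_apply]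
  fun_prop

/-- **persistence on the Grassmannian** -/
theorem pers_gr {k n : ℕ} {κ : Type*} [Fintype κ] (hκ : Fintype.card κ = k * (n - k))
    (w : κ → (Fin k → Fin n) → ℂ) (B0 : Fin k → Fin n → ℂ) (hB0 : LinearIndependent ℂ B0)
    (h0 : ∀ i, ∑ s : Fin k → Fin n, w i s * (Matrix.of fun a b => B0 a (s b)).det = 0)
    (hiso : ∀ᶠ B in 𝓝 B0,
      (∀ i, ∑ s : Fin k → Fin n, w i s * (Matrix.of fun a b => B a (s b)).det = 0) →
        Submodule.span ℂ (Set.range B) = Submodule.span ℂ (Set.range B0))
    {U : Set (Fin k → Fin n → ℂ)} (hU : U ∈ 𝓝 B0) :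
    ∀ᶠ w' in 𝓝 w, ∃ B ∈ U, LinearIndependent ℂ B ∧
      ∀ i, ∑ s : Fin k → Fin n, w' i s * (Matrix.of fun a b => B a (s b)).det = 0 := by
  classical
  obtain ⟨s, hs⟩ := exists_minor_pg B0 hB0
  have hsinj : Function.Injective s := by
    intro a b hab
    by_contra hne
    apply hs
    apply Matrix.det_zero_of_column_eq hne
    intro i
    simp [hab]
  have hkn : k ≤ n := by simpa using Fintype.card_le_of_injective s hsinj
  -- the index types
  have hcard : Fintype.card (Fin k × {c : Fin n // c ∉ Set.range s}) = Fintype.card κ := by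
    rw [hκ, Fintype.card_prod, Fintype.card_fin, Fintype.card_subtype_compl, Fintype.card_fin]
    congr 2
    exact (Fintype.card_congr (Equiv.ofInjective s hsinj).symm).trans (Fintype.card_fin k)
  let e : (Fin k × {c : Fin n // c ∉ Set.range s}) ≃ κ := Fintype.equivOfCardEq hcard
  set y0 : Fin k × {c : Fin n // c ∉ Set.range s} → ℂ := fun p => B0 p.1 p.2.1 with hy0
  have hch0 : chartPG B0 s y0 = B0 := chartPG_self B0 s
  have hcC := contDiff_chartPG B0 s
  set F : (κ → (Fin k → Fin n) → ℂ) → (Fin k × {c : Fin n // c ∉ Set.range s} → ℂ) →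
      (Fin k × {c : Fin n // c ∉ Set.range s} → ℂ) := fun w' y p =>
    ∑ t : Fin k → Fin n, w' (e p) t * (Matrix.of fun a b => chartPG B0 s y a (t b)).det with hF
  have hF1 : ∀ w', ContDiff ℂ 1 (F w') := by
    intro w'
    rw [contDiff_pi]
    intro p
    exact contDiff_ev_pg.comp (contDiff_const.prodMk hcC)
  have hF2 : Continuous fun p : (κ → (Fin k → Fin n) → ℂ) ×
      (Fin k × {c : Fin n // c ∉ Set.range s} → ℂ) => F p.1 p.2 := by
    refine continuous_pi fun q => ?_
    have h1 : Continuous fun p : (κ → (Fin k → Fin n) → ℂ) ×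
        (Fin k × {c : Fin n // c ∉ Set.range s} → ℂ) => (p.1 (e q), chartPG B0 s p.2) := by
      apply Continuous.prodMk
      · fun_prop
      · exact hcC.continuous.comp continuous_snd
    exact (contDiff_ev_pg (k := k) (n := n)).continuous.comp h1
  have hF0 : F w y0 = 0 := by
    funext p
    simp only [hF, hch0]
    exact h0 (e p)
  have hchc : Tendsto (chartPG B0 s) (𝓝 y0) (𝓝 B0) := by
    have := hcC.continuous.tendsto y0
    rwa [hch0] at this
  have hisoY : ∀ᶠ y in 𝓝 y0, F w y = 0 → y = y0 := by
    filter_upwards [hchc.eventually hiso] with y hy hFy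
    have h1 := hy (fun i => by
      have := congrFun hFy (e.symm i)
      simpa [hF] using this)
    -- the rows of the chart frame are combinations of the rows of `B0`
    have h2 : ∀ a, ∃ g : Fin k → ℂ, ∑ b, g b • B0 b = chartPG B0 s y a := by
      intro a
      have h3 : chartPG B0 s y a ∈ Submodule.span ℂ (Set.range B0) := by
        rw [← h1]
        exact Submodule.subset_span ⟨a, rfl⟩
      exact (Submodule.mem_span_range_iff_exists_fun ℂ).1 h3
    choose g hg using h2
    have h4 : Matrix.of g * (Matrix.of fun a b => B0 a (s b)) =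
        Matrix.of fun a b => B0 a (s b) := by
      ext a b
      rw [Matrix.mul_apply]
      have h5 := congrFun (hg a) (s b)
      rw [chartPG_of_mem] at h5
      simp only [Finset.sum_apply, Pi.smul_apply, smul_eq_mul] at h5
      simpa using h5
    have hu : IsUnit (Matrix.of fun a b => B0 a (s b)) :=
      (Matrix.isUnit_iff_isUnit_det _).mpr (isUnit_iff_ne_zero.mpr hs)
    have h6 : Matrix.of g = 1 := by
      apply hu.mul_right_cancel
      rw [h4, one_mul]
    have h7 : chartPG B0 s y = B0 := by
      funext a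
      rw [← hg a]
      have h8 : g a = (1 : Matrix (Fin k) (Fin k) ℂ) a := by
        rw [← h6]
        rfl
      rw [h8]
      rw [Finset.sum_eq_single a]
      · simp
      · intro b _ hb
        simp [Matrix.one_apply_ne hb.symm]
      · simp
    funext p
    obtain ⟨a, c, hc⟩ := p
    have h9 := congrFun (congrFun h7 a) c
    simp only [chartPG, dif_neg hc] at h9
    rw [h9]
  have hU' : chartPG B0 s ⁻¹' U ∈ 𝓝 y0 := hchc hU
  have hp := pers F hF1 hF2 w y0 hF0 hisoY hU'
  filter_upwards [hp] with w' hw'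
  obtain ⟨y, hy, hFy⟩ := hw'
  refine ⟨chartPG B0 s y, hy, ?_, ?_⟩
  · apply li_of_minor_pg _ s
    simp only [chartPG_of_mem]
    exact hs
  · intro i
    have := congrFun hFy (e.symm i)
    simpa [hF] using this

end

end Pool.Agent.TPT
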