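import Pool.Agent.TPT.First

/-! The decomposition `g = u b`, `u` upper unipotent, `b` lower triangular: continuity. -/

namespace Pool.TPT

open Matrix Filter Topology

section
variable {n : ℕ}

theorem Uni.one : Uni (1 : Matrix (Fin n) (Fin n) ℝ) :=
  ⟨fun i => by simp, fun i j h => Matrix.one_apply_ne h.ne'⟩

theorem Uni.mul {A B : Matrix (Fin n) (Fin n) ℝ} (hA : Uni A) (hB : Uni B) : Uni (A * B) := by
  refine ⟨fun i => ?_, fun i j hij => ?_⟩
  · rw [Matrix.mul_apply, Finset.sum_eq_single i, hA.1, hB.1, one_mul]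
    · intro k _ hk
      rcases lt_or_gt_of_ne hk with h | h
      · rw [hA.2 i k h, zero_mul]
      · rw [hB.2 k i h, mul_zero]
    · simp
  · rw [Matrix.mul_apply]
    refine Finset.sum_eq_zero fun k _ => ?_
    rcases lt_or_ge k i with h | h
    · rw [hA.2 i k h, zero_mul]
    · rw [hB.2 k j (lt_of_lt_of_le hij h), mul_zero]

theorem Uni.isUnit {A : Matrix (Fin n) (Fin n) ℝ} (hA : Uni A) : IsUnit A.det := by
  rw [hA.det]; exact isUnit_one

theorem Uni.inv {A : Matrix (Fin n) (Fin n) ℝ} (hA : Uni A) : Uni A⁻¹ := by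
  have h1 : A⁻¹.IsUpperTriangular := by
    have h0 : A.IsUpperTriangular := fun i j h => hA.2 i j h
    let _ := A.invertibleOfIsUnitDet hA.isUnit
    exact Matrix.blockTriangular_inv_of_blockTriangular h0
  have h2 : ∀ i j, j < i → A⁻¹ i j = 0 := fun i j h => h1 h
  refine ⟨fun i => ?_, h2⟩
  have h3 : (A * A⁻¹) i i = 1 := by
    rw [Matrix.mul_nonsing_inv A hA.isUnit, Matrix.one_apply_eq]
  rw [Matrix.mul_apply, Finset.sum_eq_single i, hA.1, one_mul] at h3
  · exact h3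
  · intro k _ hk
    rcases lt_or_gt_of_ne hk with h | h
    · rw [hA.2 i k h, zero_mul]
    · rw [h2 k i h, mul_zero]
  · simp

theorem Low.isUnit {b : Matrix (Fin n) (Fin n) ℝ} (hb : Low b) : IsUnit b.det :=
  hb.det_ne.isUnit

theorem Low.mul {A B : Matrix (Fin n) (Fin n) ℝ} (hA : Low A) (hB : Low B) : Low (A * B) := by
  refine ⟨fun i j hij => ?_, fun i => ?_⟩
  · rw [Matrix.mul_apply]
    refine Finset.sum_eq_zero fun k _ => ?_
    rcases lt_or_ge i k with h | h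
    · rw [hA.1 i k h, zero_mul]
    · rw [hB.1 k j (lt_of_le_of_lt h hij), mul_zero]
  · rw [Matrix.mul_apply, Finset.sum_eq_single i]
    · exact mul_ne_zero (hA.2 i) (hB.2 i)
    · intro k _ hk
      rcases lt_or_gt_of_ne hk with h | h
      · rw [hB.1 k i h, mul_zero]
      · rw [hA.1 i k h, zero_mul]
    · simp

/-- uniqueness -/
theorem ul_unique {p q b : Matrix (Fin n) (Fin n) ℝ} (hp : Uni p) (hq : Uni q) (hb : Low b)
    (h : p = q * b) : p = q := by
  have h1 : q⁻¹ * p = b := by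
    rw [h, ← mul_assoc, Matrix.nonsing_inv_mul q hq.isUnit, one_mul]
  have h2 : Uni (q⁻¹ * p) := hq.inv.mul hp
  have h3 : b = 1 := by
    ext i j
    rcases lt_trichotomy i j with h | h | h
    · rw [hb.1 i j h, Matrix.one_apply_ne h.ne]
    · subst h; rw [← h1, h2.1, Matrix.one_apply_eq]
    · rw [← h1, h2.2 i j h, Matrix.one_apply_ne h.ne']
  rw [h, h3, mul_one]

/-- the strictly upper part -/
def up (Z : Fin n → Fin n → ℝ) : Matrix (Fin n) (Fin n) ℝ :=
  Matrix.of fun i j => if i < j then Z i j else 0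

/-- the lower part -/
def lo (Z : Fin n → Fin n → ℝ) : Matrix (Fin n) (Fin n) ℝ :=
  Matrix.of fun i j => if i < j then 0 else Z i j

theorem uni_up (Z : Fin n → Fin n → ℝ) : Uni (1 + up Z) := by
  refine ⟨fun i => by simp [up], fun i j hij => ?_⟩
  simp [up, hij.not_gt, Matrix.one_apply_ne hij.ne']

/-- the product map -/
def fZ (Z : Fin n → Fin n → ℝ) : Fin n → Fin n → ℝ := fun i j =>
  ((1 + up Z) * (1 + lo Z) : Matrix (Fin n) (Fin n) ℝ) i j

theorem fZ_apply (Z : Fin n → Fin n → ℝ) (i j : Fin n) :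
    fZ Z i j = (1 : Matrix (Fin n) (Fin n) ℝ) i j + Z i j + ∑ k, up Z i k * lo Z k j := by
  have h : (1 + up Z) * (1 + lo Z) = 1 + (up Z + lo Z) + up Z * lo Z := by noncomm_ring
  change ((1 + up Z) * (1 + lo Z)) i j = _
  rw [h, Matrix.add_apply, Matrix.add_apply, Matrix.mul_apply]
  congr 2
  simp only [up, lo, Matrix.add_apply, Matrix.of_apply]
  split_ifs <;> simp

theorem fZ_zero : fZ (0 : Fin n → Fin n → ℝ) =
    fun i j => (1 : Matrix (Fin n) (Fin n) ℝ) i j := by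
  funext i j
  rw [fZ_apply]
  simp [up, lo]

theorem fZ_deriv : HasStrictFDerivAt (fZ : (Fin n → Fin n → ℝ) → (Fin n → Fin n → ℝ))
    (ContinuousLinearMap.id ℝ (Fin n → Fin n → ℝ)) 0 := by
  rw [hasStrictFDerivAt_pi']
  intro i
  rw [hasStrictFDerivAt_pi']
  intro j
  have hev : ∀ k l : Fin n, HasStrictFDerivAt (fun Z : Fin n → Fin n → ℝ => Z k l)
      ((ContinuousLinearMap.proj l).comp (ContinuousLinearMap.proj (R := ℝ)
        (φ := fun _ : Fin n => Fin n → ℝ) k)) 0 := by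
    intro k l
    exact ((ContinuousLinearMap.proj l).comp (ContinuousLinearMap.proj (R := ℝ)
        (φ := fun _ : Fin n => Fin n → ℝ) k)).hasStrictFDerivAt
  have hq : ∀ k : Fin n, HasStrictFDerivAt (fun Z : Fin n → Fin n → ℝ => up Z i k * lo Z k j)
      (0 : (Fin n → Fin n → ℝ) →L[ℝ] ℝ) 0 := by
    intro k
    simp only [up, lo, Matrix.of_apply]
    split_ifs with h1 h2 h2
    · simpa using hasStrictFDerivAt_const (0 : ℝ) (0 : Fin n → Fin n → ℝ)
    · refine ((hev i k).fun_mul (hev k j)).congr_fderiv ?_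
      simp
    · simpa using hasStrictFDerivAt_const (0 : ℝ) (0 : Fin n → Fin n → ℝ)
    · simpa using hasStrictFDerivAt_const (0 : ℝ) (0 : Fin n → Fin n → ℝ)
  have hsum := HasStrictFDerivAt.fun_sum (u := Finset.univ) fun k _ => hq k
  have htot := ((hasStrictFDerivAt_const ((1 : Matrix (Fin n) (Fin n) ℝ) i j)
    (0 : Fin n → Fin n → ℝ)).add (hev i j)).add hsum
  have e : (fun Z : Fin n → Fin n → ℝ => fZ Z i j) = fun Z =>
      (1 : Matrix (Fin n) (Fin n) ℝ) i j + Z i j + ∑ k, up Z i k * lo Z k j := by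
    funext Z; exact fZ_apply Z i j
  rw [e]
  refine htot.congr_fderiv ?_
  ext Z
  simp

/-- near `1` -/
theorem ul_one : ∃ v : Matrix (Fin n) (Fin n) ℝ → Matrix (Fin n) (Fin n) ℝ,
    Tendsto v (𝓝 1) (𝓝 1) ∧ ∀ᶠ g in 𝓝 (1 : Matrix (Fin n) (Fin n) ℝ),
      Uni (v g) ∧ ∃ b, Low b ∧ g = v g * b := by
  have hd : HasStrictFDerivAt (fZ : (Fin n → Fin n → ℝ) → (Fin n → Fin n → ℝ))
    ((ContinuousLinearEquiv.refl ℝ (Fin n → Fin n → ℝ) :
      (Fin n → Fin n → ℝ) ≃L[ℝ] (Fin n → Fin n → ℝ)) :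
      (Fin n → Fin n → ℝ) →L[ℝ] (Fin n → Fin n → ℝ)) 0 := fZ_deriv
  set φ := hd.localInverse with hφ
  have h1 : ∀ᶠ g in 𝓝 (fZ (0 : Fin n → Fin n → ℝ)), fZ (φ g) = g := hd.eventually_right_inverse
  have h2 : Tendsto φ (𝓝 (fZ (0 : Fin n → Fin n → ℝ))) (𝓝 0) := by
    have := hd.localInverse_continuousAt
    have h3 : φ (fZ 0) = 0 := hd.localInverse_apply_image
    rw [ContinuousAt, ← hφ, h3] at this
    exact this
  rw [fZ_zero] at h1 h2
  have h2' : Tendsto φ (𝓝 (1 : Matrix (Fin n) (Fin n) ℝ)) (𝓝 (0 : Fin n → Fin n → ℝ)) := h2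
  have hent : ∀ i j, Tendsto (fun g : Matrix (Fin n) (Fin n) ℝ => φ g i j) (𝓝 1) (𝓝 0) := by
    intro i j
    exact tendsto_pi_nhds.1 (tendsto_pi_nhds.1 h2' i) j
  refine ⟨fun g => 1 + up (φ g), ?_, ?_⟩
  · rw [tendsto_entry]
    intro i j
    simp only [up, Matrix.add_apply, Matrix.of_apply]
    split_ifs
    · simpa using tendsto_const_nhds.add (hent i j)
    · simpa using tendsto_const_nhds
  · have h4 : ∀ i, ∀ᶠ g in 𝓝 (1 : Matrix (Fin n) (Fin n) ℝ), -1 < φ g i i := fun i =>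
      (hent i i).eventually_const_lt (by norm_num)
    have h1' : ∀ᶠ g in 𝓝 (1 : Matrix (Fin n) (Fin n) ℝ), fZ (φ g) = g := h1
    filter_upwards [h1', Filter.eventually_all.2 h4] with g hg hg2
    refine ⟨uni_up _, 1 + lo (φ g), ⟨fun i j hij => ?_, fun i => ?_⟩, hg.symm⟩
    · simp [lo, hij, Matrix.one_apply_ne hij.ne]
    · have := hg2 i
      simp only [lo, Matrix.add_apply, Matrix.one_apply_eq, Matrix.of_apply, lt_irrefl, if_false]
      intro h; linarith

/-- the decomposition is continuous -/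
theorem ul_near {u0 b0 : Matrix (Fin n) (Fin n) ℝ} (hu : Uni u0) (hb : Low b0) :
    ∃ v : Matrix (Fin n) (Fin n) ℝ → Matrix (Fin n) (Fin n) ℝ,
    Tendsto v (𝓝 (u0 * b0)) (𝓝 u0) ∧ ∀ᶠ g in 𝓝 (u0 * b0),
      Uni (v g) ∧ ∃ b, Low b ∧ g = v g * b := by
  obtain ⟨v, hv, hd⟩ := ul_one (n := n)
  have hcont : Continuous fun g : Matrix (Fin n) (Fin n) ℝ => u0⁻¹ * g * b0⁻¹ :=
    (continuous_const.matrix_mul continuous_id).matrix_mul continuous_const
  have h0 : u0⁻¹ * (u0 * b0) * b0⁻¹ = 1 := by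
    rw [← mul_assoc, Matrix.nonsing_inv_mul u0 hu.isUnit, one_mul,
      Matrix.mul_nonsing_inv b0 hb.isUnit]
  have ht : Tendsto (fun g : Matrix (Fin n) (Fin n) ℝ => u0⁻¹ * g * b0⁻¹) (𝓝 (u0 * b0)) (𝓝 1) := by
    have := hcont.tendsto (u0 * b0)
    rwa [h0] at this
  refine ⟨fun g => u0 * v (u0⁻¹ * g * b0⁻¹), ?_, ?_⟩
  · have h1 : Tendsto (fun w : Matrix (Fin n) (Fin n) ℝ => u0 * w) (𝓝 1) (𝓝 (u0 * 1)) :=
      (continuous_const.matrix_mul continuous_id).tendsto 1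
    rw [mul_one] at h1
    exact h1.comp (hv.comp ht)
  · filter_upwards [ht.eventually hd] with g hg
    obtain ⟨h1, b, hb', h2⟩ := hg
    refine ⟨hu.mul h1, b * b0, hb'.mul hb, ?_⟩
    calc g = u0 * (u0⁻¹ * g * b0⁻¹) * b0 := by
          rw [mul_assoc, mul_assoc, Matrix.nonsing_inv_mul b0 hb.isUnit, mul_one, ← mul_assoc,
            Matrix.mul_nonsing_inv u0 hu.isUnit, one_mul]
      _ = u0 * (v (u0⁻¹ * g * b0⁻¹) * b) * b0 := by rw [← h2]
      _ = _ := by noncomm_ring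

end

end Pool.TPT
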