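import Pool.Agent.TPT.Low

/-! If all matrices `(1 + τ x) a` represent positive flags then `x = 0`. -/

namespace Pool.TPT

open Matrix Filter Topology

section
variable {n : ℕ}

/-- corner block determinant of size `j` -/
noncomputable def cd (j : ℕ) (hj : j ≤ n) (A : Matrix (Fin n) (Fin n) ℝ) : ℝ :=
  det (A.submatrix (Fin.castLE hj) (lastm hj))

theorem cd_succ (j : ℕ) (hj : j + 1 ≤ n) (A : Matrix (Fin n) (Fin n) ℝ) :
    cd (j + 1) hj A = nm j hj ⟨j, hj⟩ A := by
  rw [cd, nm]
  congr 1
  ext a c
  rw [Matrix.submatrix_apply, Matrix.submatrix_apply]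
  congr 1
  ext
  rw [nrow_corner]; rfl

theorem Pos.cd_ne {A : Matrix (Fin n) (Fin n) ℝ} (hA : Pos n A) (j : ℕ) (hj : j ≤ n) :
    cd j hj A ≠ 0 := by
  cases j with
  | zero => simp [cd]
  | succ j => rw [cd_succ]; exact (hA.nm_pos j hj).ne'

theorem nm_add {A B : Matrix (Fin n) (Fin n) ℝ} (j : ℕ) (hj : j + 1 ≤ n) (i : Fin n)
    (hB : ∀ (r : Fin n) (c : Fin (j + 1)), r.val < j ∨ 0 < c.val → B r (lastm hj c) = 0) (t : ℝ) :
    nm j hj i (A + t • B) = nm j hj i A +
      t * (B i (lastm hj 0) * ((-1) ^ j * cd j (by omega) A)) := by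
  have h1 : (A + t • B).submatrix (nrow j hj i) (lastm hj) =
      (A.submatrix (nrow j hj i) (lastm hj)).updateRow (Fin.last j)
        ((fun c => A i (lastm hj c)) + (t * B i (lastm hj 0)) • fun c => if c = 0 then 1 else 0) := by
    ext a c
    refine Fin.lastCases ?_ (fun a => ?_) a
    · rw [Matrix.updateRow_self, Matrix.submatrix_apply, nrow_last]
      simp only [Matrix.add_apply, Matrix.smul_apply, smul_eq_mul, Pi.add_apply, Pi.smul_apply]
      by_cases hc : c = 0
      · subst hc; simp
      · rw [if_neg hc, hB i c (Or.inr (Nat.pos_of_ne_zero fun h => hc (Fin.ext h)))]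
        ring
    · rw [Matrix.updateRow_ne (Fin.castSucc_lt_last a).ne, Matrix.submatrix_apply,
        Matrix.submatrix_apply, nrow_castSucc]
      simp only [Matrix.add_apply, Matrix.smul_apply, smul_eq_mul]
      rw [hB _ c (Or.inl a.2)]
      ring
  have h2 : (A.submatrix (nrow j hj i) (lastm hj)).updateRow (Fin.last j)
      (fun c => A i (lastm hj c)) = A.submatrix (nrow j hj i) (lastm hj) := by
    ext a c
    refine Fin.lastCases ?_ (fun a => ?_) a
    · rw [Matrix.updateRow_self, Matrix.submatrix_apply, nrow_last]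
    · rw [Matrix.updateRow_ne (Fin.castSucc_lt_last a).ne]
  have h3 : ((A.submatrix (nrow j hj i) (lastm hj)).updateRow (Fin.last j)
      fun c => if c = 0 then (1 : ℝ) else 0).det = (-1) ^ j * cd j (by omega) A := by
    rw [Matrix.det_succ_row _ (Fin.last j), Finset.sum_eq_single 0]
    · rw [Matrix.updateRow_self, cd]
      simp only [Fin.val_last, Fin.val_zero, add_zero, if_true, mul_one]
      congr 2
      ext a c
      rw [Matrix.submatrix_apply, Fin.succAbove_last, Fin.succAbove_zero,
        Matrix.updateRow_ne (Fin.castSucc_lt_last a).ne, Matrix.submatrix_apply,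
        Matrix.submatrix_apply, nrow_castSucc]
      congr 1
      ext; simp [lastm]; omega
    · intro c _ hc
      rw [Matrix.updateRow_self, if_neg hc]
      simp
    · simp
  rw [nm, h1, Matrix.det_updateRow_add, h2, Matrix.det_updateRow_smul, h3, nm]
  ring

theorem affine_zero {a b : ℝ} (h : ∀ t : ℝ, 0 ≤ a + t * b) : b = 0 := by
  by_contra hb
  have h1 := h (-(a + 1) / b)
  have h2 : -(a + 1) / b * b = -(a + 1) := div_mul_cancel₀ _ hb
  rw [h2] at h1
  linarith

/-- the first conormal vector vanishes -/
theorem first_zero {x a : Matrix (Fin n) (Fin n) ℝ} (hx : SLow x) (ha : Pos n a)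
    (h : ∀ t : ℝ, ∃ c, Pos n c ∧ ∃ b, Low b ∧ (1 + t • x) * a = c * b) : x = 0 := by
  -- columns
  have key : ∀ (j : ℕ) (hj : j ≤ n), ∀ (r c : Fin n), n - j ≤ c.val → (x * a) r c = 0 := by
    intro j
    induction j with
    | zero => intro _ r c hc; omega
    | succ j ih =>
      intro hj
      have hj' : j ≤ n := by omega
      have ih' := ih hj'
      -- rows `0..j` of `x` vanish
      have hrow : ∀ i : Fin n, i.val ≤ j → ∀ k, x i k = 0 := by
        intro i hi
        have hM : (a.submatrix (Fin.castLE hj') (lastm hj')).det ≠ 0 :=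
          ha.cd_ne j hj'
        have h1 : (fun k : Fin j => x i (Fin.castLE hj' k)) ᵥ*
            (a.submatrix (Fin.castLE hj') (lastm hj')) = 0 := by
          ext c
          have h2 := ih' i (lastm hj' c) (by simp [lastm])
          rw [Matrix.mul_apply] at h2
          rw [Matrix.vecMul, dotProduct, Pi.zero_apply, ← h2]
          refine Fintype.sum_of_injective (Fin.castLE hj') (Fin.castLE_injective _) _ _ ?_
            fun k => rfl
          intro k hk
          rw [hx i k ?_, zero_mul]
          rw [Fin.le_def]
          by_contra hlt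
          exact hk ⟨⟨k.val, by omega⟩, rfl⟩
        have h3 := Matrix.eq_zero_of_vecMul_eq_zero hM h1
        intro k
        rcases Nat.lt_or_ge k.val i.val with hk | hk
        · exact congrFun h3 ⟨k.val, by omega⟩
        · exact hx i k hk
      have hB : ∀ (r : Fin n) (c : Fin (j + 1)), r.val < j ∨ 0 < c.val →
          (x * a) r (lastm hj c) = 0 := by
        rintro r c (hr | hc)
        · rw [Matrix.mul_apply]
          exact Finset.sum_eq_zero fun k _ => by rw [hrow r hr.le, zero_mul]
        · exact ih' r _ (by simp only [lastm]; omega)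
      have hB0 : ∀ (r : Fin n), r.val ≤ j → ∀ c, (x * a) r c = 0 := by
        intro r hr c
        rw [Matrix.mul_apply]
        exact Finset.sum_eq_zero fun k _ => by rw [hrow r hr, zero_mul]
      have hexp : ∀ t : ℝ, (1 + t • x) * a = a + t • (x * a) := by
        intro t
        rw [add_mul, one_mul, Matrix.smul_mul]
      have hcol : ∀ i : Fin n, (x * a) i (lastm hj 0) = 0 := by
        intro i
        rcases Nat.lt_or_ge j i.val with hi | hi
        · have h4 : ∀ t : ℝ, 0 ≤ nm j hj i a +
              t * ((x * a) i (lastm hj 0) * ((-1) ^ j * cd j (by omega) a)) := by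
            intro t
            obtain ⟨c, hc, b, hb, he⟩ := h t
            obtain ⟨β, hβ, hm⟩ := nm_mul_low hb j hj
            have h5 := hm ⟨j, by omega⟩ c
            rw [← he, hexp, nm_add j hj _ hB t, hB0 ⟨j, by omega⟩ (le_refl _)] at h5
            have h6 := hm i c
            rw [← he, hexp, nm_add j hj _ hB t] at h6
            rw [h6]
            have h7 := ha.nm_pos j hj
            have h8 := hc.nm_pos j hj
            have h9 : 0 < β := by
              have : 0 < nm j hj ⟨j, by omega⟩ c * β := by rw [← h5]; simpa using h7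
              exact (pos_iff_pos_of_mul_pos this).1 h8
            exact mul_nonneg (hc.nm_nonneg j hj i) h9.le
          have h5 := affine_zero h4
          rcases mul_eq_zero.1 h5 with h6 | h6
          · exact h6
          · exact absurd h6 (mul_ne_zero (pow_ne_zero _ (by norm_num)) (ha.cd_ne j _))
        · exact hB0 i hi _
      intro r c hc
      rcases Nat.lt_or_ge c.val (n - j) with h10 | h10
      · have : c = lastm hj 0 := by ext; simp [lastm]; omega
        rw [this]; exact hcol r
      · exact ih' r c h10
  have hxa : x * a = 0 := by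
    ext r c
    exact key n le_rfl r c (by omega)
  have hdet : a.det = 1 := ha.uni.det
  have hinv : a * a⁻¹ = 1 := Matrix.mul_nonsing_inv a (by rw [hdet]; exact isUnit_one)
  calc x = x * (a * a⁻¹) := by rw [hinv, mul_one]
    _ = x * a * a⁻¹ := by rw [mul_assoc]
    _ = 0 := by rw [hxa, zero_mul]

end

end Pool.TPT
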