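import Pool.Agent.TPT.Open

/-! Lower triangular matrices, equivariance of minors. -/

namespace Pool.TPT

open Matrix Filter Topology

section
variable {n : ℕ}

/-- invertible lower triangular matrices -/
def Low (b : Matrix (Fin n) (Fin n) ℝ) : Prop := (∀ i j, i < j → b i j = 0) ∧ ∀ i, b i i ≠ 0

/-- strictly lower triangular matrices -/
def SLow (x : Matrix (Fin n) (Fin n) ℝ) : Prop := ∀ i j, i ≤ j → x i j = 0

/-- strictly upper triangular matrices -/
def SUpp (x : Matrix (Fin n) (Fin n) ℝ) : Prop := ∀ i j, j ≤ i → x i j = 0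

theorem lastm_inj {j : ℕ} (hj : j ≤ n) : Function.Injective (lastm hj) := by
  intro c c' h
  have := congrArg Fin.val h
  simp [lastm] at this
  ext; omega

theorem nrow_corner_inj (j : ℕ) (hj : j + 1 ≤ n) :
    Function.Injective (nrow j hj ⟨j, hj⟩) := by
  have h0 : ∀ a, (nrow j hj ⟨j, hj⟩ a).val = a.val := by
    intro a
    refine Fin.lastCases ?_ (fun a => ?_) a
    · simp
    · simp
  intro a a' h
  have h1 := congrArg Fin.val h
  ext
  rwa [h0, h0] at h1

theorem nrow_corner (j : ℕ) (hj : j + 1 ≤ n) (a : Fin (j + 1)) :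
    (nrow j hj ⟨j, by omega⟩ a).val = a.val := by
  refine Fin.lastCases ?_ (fun a => ?_) a
  · simp
  · simp

theorem Low.det_ne {b : Matrix (Fin n) (Fin n) ℝ} (hb : Low b) : b.det ≠ 0 := by
  rw [Matrix.det_of_isLowerTriangular]
  · exact Finset.prod_ne_zero_iff.2 fun i _ => hb.2 i
  · intro i j h
    exact hb.1 i j h

/-- right equivariance -/
theorem nm_mul_low {b : Matrix (Fin n) (Fin n) ℝ} (hb : Low b) (j : ℕ) (hj : j + 1 ≤ n) :
    ∃ β : ℝ, β ≠ 0 ∧ ∀ (i : Fin n) (A : Matrix (Fin n) (Fin n) ℝ),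
      nm j hj i (A * b) = nm j hj i A * β := by
  refine ⟨det (b.submatrix (lastm hj) (lastm hj)), ?_, fun i A => ?_⟩
  · refine Low.det_ne ⟨fun c c' h => hb.1 _ _ ?_, fun c => hb.2 _⟩
    rw [Fin.lt_def] at h ⊢
    simp only [lastm]; omega
  · rw [nm, nm, ← Matrix.det_mul]
    congr 1
    ext a c
    rw [Matrix.submatrix_apply, Matrix.mul_apply, Matrix.mul_apply]
    symm
    refine Fintype.sum_of_injective (lastm hj) (lastm_inj hj) _ _ ?_ fun k => rfl
    intro k hk
    rw [hb.1 k _ ?_, mul_zero]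
    rw [Fin.lt_def]
    by_contra hlt
    apply hk
    simp only [lastm] at hlt
    refine ⟨⟨k.val - (n - (j + 1)), by omega⟩, ?_⟩
    ext; simp only [lastm]; omega

/-- left equivariance of corner minors -/
theorem low_mul_nm {b : Matrix (Fin n) (Fin n) ℝ} (hb : Low b) (j : ℕ) (hj : j + 1 ≤ n) :
    ∃ β : ℝ, β ≠ 0 ∧ ∀ (A : Matrix (Fin n) (Fin n) ℝ),
      nm j hj ⟨j, by omega⟩ (b * A) = β * nm j hj ⟨j, by omega⟩ A := by
  refine ⟨det (b.submatrix (nrow j hj ⟨j, by omega⟩) (nrow j hj ⟨j, by omega⟩)), ?_, fun A => ?_⟩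
  · refine Low.det_ne ⟨fun c c' h => hb.1 _ _ ?_, fun c => hb.2 _⟩
    rw [Fin.lt_def] at h ⊢
    rw [nrow_corner, nrow_corner]; exact h
  · rw [nm, nm, ← Matrix.det_mul]
    congr 1
    ext a c
    rw [Matrix.submatrix_apply, Matrix.mul_apply, Matrix.mul_apply]
    symm
    refine Fintype.sum_of_injective (nrow j hj ⟨j, by omega⟩) (nrow_corner_inj j hj) _ _ ?_
      fun k => rfl
    intro k hk
    rw [hb.1 _ k ?_, zero_mul]
    rw [Fin.lt_def, nrow_corner]
    by_contra hlt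
    apply hk
    refine ⟨⟨k.val, by omega⟩, ?_⟩
    ext; rw [nrow_corner]

end

end Pool.TPT
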