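import Pool.Agent.TPT.Pos

/-! Corner minors and near-corner minors. -/

namespace Pool.TPT

open Matrix Filter Topology

/-- the last `j` indices -/
def lastm {n j : ℕ} (hj : j ≤ n) (c : Fin j) : Fin n := ⟨n - j + c, by omega⟩

/-- the rows `0, .., j - 1, i` -/
def nrow {n : ℕ} (j : ℕ) (hj : j + 1 ≤ n) (i : Fin n) (a : Fin (j + 1)) : Fin n :=
  Fin.lastCases i (fun a' => ⟨a', by omega⟩) a

@[simp] theorem nrow_last {n : ℕ} (j : ℕ) (hj : j + 1 ≤ n) (i : Fin n) :
    nrow j hj i (Fin.last j) = i := by simp [nrow]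

@[simp] theorem nrow_castSucc {n : ℕ} (j : ℕ) (hj : j + 1 ≤ n) (i : Fin n) (a : Fin j) :
    nrow j hj i a.castSucc = ⟨a, by omega⟩ := by simp [nrow]

/-- near-corner minors: rows `0, .., j - 1, i`, the last `j + 1` columns -/
noncomputable def nm {n : ℕ} (j : ℕ) (hj : j + 1 ≤ n) (i : Fin n)
    (u : Matrix (Fin n) (Fin n) ℝ) : ℝ :=
  det (u.submatrix (nrow j hj i) (lastm hj))

theorem nm_of_lt {n : ℕ} (j : ℕ) (hj : j + 1 ≤ n) (i : Fin n) (hi : i.val < j)
    (u : Matrix (Fin n) (Fin n) ℝ) : nm j hj i u = 0 := by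
  refine Matrix.det_zero_of_row_eq (i := Fin.last j) (j := (⟨i, hi⟩ : Fin j).castSucc) ?_ ?_
  · exact (Fin.castSucc_lt_last _).ne'
  · funext c
    change u (nrow j hj i (Fin.last j)) _ = u (nrow j hj i (Fin.castSucc ⟨i, hi⟩)) _
    rw [nrow_last, nrow_castSucc]

/-- the row-operation matrix -/
def Lm (j : ℕ) (b : Fin j → ℝ) : Matrix (Fin (j + 1)) (Fin (j + 1)) ℝ :=
  Matrix.of fun a a' => (if a' = a then Fin.lastCases (1 : ℝ) b a else 0) +
    (if a'.val + 1 = a.val ∧ a.val < j then 1 else 0)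

theorem det_Lm (j : ℕ) (b : Fin j → ℝ) : (Lm j b).det = ∏ a, b a := by
  rw [Matrix.det_of_isLowerTriangular]
  · rw [Fin.prod_univ_castSucc]
    simp [Lm]
  · intro a a' h
    have h' : a < a' := h
    have h1 : a' ≠ a := h'.ne'
    have h2 : ¬ (a'.val + 1 = a.val ∧ a.val < j) := by
      rw [Fin.lt_def] at h'; omega
    simp [Lm, h1, h2]

theorem Lm_mul {j : ℕ} (b : Fin j → ℝ) {κ : Type*} (M : Matrix (Fin (j + 1)) κ ℝ) (a : Fin (j + 1))
    (c : κ) : (Lm j b * M) a c = Fin.lastCases (1 : ℝ) b a * M a c +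
      (if h : 0 < a.val ∧ a.val < j then M ⟨a.val - 1, by omega⟩ c else 0) := by
  rw [Matrix.mul_apply]
  simp only [Lm, Matrix.of_apply, add_mul, Finset.sum_add_distrib]
  congr 1
  · simp
  · split_ifs with h
    · rw [Finset.sum_eq_single (⟨a.val - 1, by omega⟩ : Fin (j + 1))]
      · rw [if_pos, one_mul]
        constructor
        · simp; omega
        · exact h.2
      · intro k _ hk
        rw [if_neg, zero_mul]
        rintro ⟨h1, h2⟩
        apply hk
        ext
        simp; omega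
      · simp
    · refine Finset.sum_eq_zero fun k _ => ?_
      rw [if_neg, zero_mul]
      rintro ⟨h1, h2⟩
      exact h ⟨by omega, h2⟩

theorem nm_step_aux {n : ℕ} (b : Fin n → ℝ) (w : Matrix (Fin n) (Fin n) ℝ) (j : ℕ) (hj : j + 1 ≤ n)
    (i : Fin (n + 1)) : nm j (by omega) i (step b w) = (∏ a : Fin j, b ⟨a, by omega⟩) *
      det (Matrix.of fun (a c : Fin (j + 1)) => Fin.lastCases
        (shp w i (lastm hj c) + scp b w i (lastm hj c))
        (fun a' : Fin j => w ⟨a', by omega⟩ (lastm hj c)) a) := by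
  rw [← det_Lm j (fun a : Fin j => b ⟨a, by omega⟩), ← Matrix.det_mul, nm]
  congr 1
  ext a c
  rw [Lm_mul]
  have hc : lastm (n := n + 1) (by omega) c = (lastm hj c).succ := by
    ext; simp [lastm]; omega
  rw [Matrix.submatrix_apply, hc, step_succ]
  refine Fin.lastCases ?_ (fun a => ?_) a
  · simp
  · have h1 : (⟨a, by omega⟩ : Fin (n + 1)) = (⟨a, by omega⟩ : Fin n).castSucc := rfl
    simp only [nrow_castSucc, Matrix.of_apply, Fin.lastCases_castSucc, Fin.val_castSucc]
    rw [h1, scp_castSucc, add_comm]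
    congr 1
    by_cases ha : 0 < a.val
    · rw [dif_pos ⟨ha, a.2⟩]
      have h2 : (⟨a.val - 1, by omega⟩ : Fin (j + 1)) = (⟨a.val - 1, by omega⟩ : Fin j).castSucc :=
        rfl
      have h3 : (⟨a, by omega⟩ : Fin n).castSucc = (⟨a.val - 1, by omega⟩ : Fin n).succ := by
        ext; simp; omega
      rw [h2, Fin.lastCases_castSucc, h3, shp_succ]
    · rw [dif_neg (by omega)]
      have h3 : (⟨a, by omega⟩ : Fin n).castSucc = 0 := by ext; simp; omega
      rw [h3]; rfl

/-- the near-corner minors of a step -/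
theorem nm_step {n : ℕ} (b : Fin n → ℝ) (w : Matrix (Fin n) (Fin n) ℝ) (j : ℕ) (hj : j + 1 ≤ n)
    (i : Fin (n + 1)) : nm j (by omega) i (step b w) = (∏ a : Fin j, b ⟨a, by omega⟩) *
      (Fin.cases (0 : ℝ) (fun i' => nm j hj i' w) i +
        Fin.lastCases (0 : ℝ) (fun i' => b i' * nm j hj i' w) i) := by
  rw [nm_step_aux b w j hj i]
  congr 1
  set A : Matrix (Fin (j + 1)) (Fin (j + 1)) ℝ := Matrix.of fun (a c : Fin (j + 1)) =>
    Fin.lastCases (0 : ℝ) (fun a' : Fin j => w ⟨a', by omega⟩ (lastm hj c)) a with hA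
  have key : ∀ v : Fin (j + 1) → ℝ, (Matrix.of fun (a c : Fin (j + 1)) => Fin.lastCases (v c)
      (fun a' : Fin j => w ⟨a', by omega⟩ (lastm hj c)) a) = A.updateRow (Fin.last j) v := by
    intro v
    ext a c
    refine Fin.lastCases ?_ (fun a => ?_) a
    · simp
    · rw [Matrix.updateRow_ne (Fin.castSucc_lt_last a).ne]
      simp [hA]
  have key2 : ∀ i' : Fin n, (A.updateRow (Fin.last j) fun c => w i' (lastm hj c)).det
      = nm j hj i' w := by
    intro i'
    rw [← key, nm]
    congr 1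
    ext a c
    refine Fin.lastCases ?_ (fun a => ?_) a
    · simp
    · simp
  rw [key]
  have hadd : (fun c => shp w i (lastm hj c) + scp b w i (lastm hj c))
      = (fun c => shp w i (lastm hj c)) + fun c => scp b w i (lastm hj c) := rfl
  rw [hadd, Matrix.det_updateRow_add]
  congr 1
  · refine Fin.cases ?_ (fun i' => ?_) i
    · simp only [shp_zero, Fin.cases_zero]
      refine Matrix.det_eq_zero_of_row_eq_zero (Fin.last j) fun c => ?_
      rw [Matrix.updateRow_self]
    · simp only [shp_succ, Fin.cases_succ]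
      exact key2 i'
  · refine Fin.lastCases ?_ (fun i' => ?_) i
    · simp only [scp_last, Fin.lastCases_last]
      refine Matrix.det_eq_zero_of_row_eq_zero (Fin.last j) fun c => ?_
      rw [Matrix.updateRow_self]
    · simp only [scp_castSucc, Fin.lastCases_castSucc]
      rw [← key2 i']
      exact Matrix.det_updateRow_smul A (Fin.last j) (b i') (fun c => w i' (lastm hj c))

/-- the corner minors of a step -/
theorem nm_step_corner {n : ℕ} (b : Fin n → ℝ) (w : Matrix (Fin n) (Fin n) ℝ) (j : ℕ)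
    (hj : j + 1 ≤ n) : nm j (by omega) ⟨j, by omega⟩ (step b w) =
      (∏ a : Fin (j + 1), b ⟨a, by omega⟩) * nm j hj ⟨j, by omega⟩ w := by
  rw [nm_step b w j hj]
  have h1 : (⟨j, by omega⟩ : Fin (n + 1)) = (⟨j, by omega⟩ : Fin n).castSucc := rfl
  have h0 : (Fin.cases (0 : ℝ) (fun i' => nm j hj i' w) (⟨j, by omega⟩ : Fin (n + 1)) : ℝ) = 0 := by
    rcases Nat.eq_zero_or_pos j with h | h
    · subst h; rfl
    · have h2 : (⟨j, by omega⟩ : Fin (n + 1)) = (⟨j - 1, by omega⟩ : Fin n).succ := by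
        ext; simp; omega
      rw [h2, Fin.cases_succ]
      exact nm_of_lt j hj _ (by simp; omega) w
  rw [h0, zero_add, h1, Fin.lastCases_castSucc, Fin.prod_univ_castSucc, ← mul_assoc]
  rfl

theorem lastm_full {n : ℕ} (c : Fin n) : lastm (le_refl n) c = c := by
  ext; simp [lastm]

/-- the full corner minor is the determinant -/
theorem nm_full {n : ℕ} (u : Matrix (Fin (n + 1)) (Fin (n + 1)) ℝ) :
    nm n (le_refl _) ⟨n, by omega⟩ u = u.det := by
  rw [nm]
  congr 1
  ext a c
  rw [Matrix.submatrix_apply, lastm_full]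
  congr 1
  refine Fin.lastCases ?_ (fun a => ?_) a
  · rw [nrow_last]; rfl
  · rw [nrow_castSucc]; rfl

theorem Uni.det {n : ℕ} {u : Matrix (Fin n) (Fin n) ℝ} (hu : Uni u) : u.det = 1 := by
  rw [Matrix.det_of_isUpperTriangular]
  · simp [hu.1]
  · intro i j h
    exact hu.2 i j h

/-- near-corner minors are nonnegative on `Pos` -/
theorem Pos.nm_nonneg : ∀ {n : ℕ} {u : Matrix (Fin n) (Fin n) ℝ}, Pos n u → ∀ (j : ℕ)
    (hj : j + 1 ≤ n) (i : Fin n), 0 ≤ nm j hj i u
  | 0, _, _ => fun _ _ i => i.elim0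
  | n + 1, u, ⟨b, w, hb, hw, h⟩ => by
    intro j hj i
    rcases Nat.lt_or_ge j n with hjn | hjn
    · subst h
      rw [nm_step b w j hjn i]
      refine mul_nonneg (Finset.prod_nonneg fun a _ => (hb _).le) (add_nonneg ?_ ?_)
      · refine Fin.cases ?_ (fun i' => ?_) i
        · simp
        · simpa using hw.nm_nonneg j hjn i'
      · refine Fin.lastCases ?_ (fun i' => ?_) i
        · simp
        · simpa using mul_nonneg (hb i').le (hw.nm_nonneg j hjn i')
    · have hjn' : j = n := by omega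
      subst hjn'
      rcases Nat.lt_or_ge i.val j with hi | hi
      · rw [nm_of_lt j hj i hi]
      · have : i = ⟨j, by omega⟩ := by ext; simp; omega
        rw [this, nm_full, (Pos.uni ⟨b, w, hb, hw, h⟩ : Uni u).det]
        exact zero_le_one

/-- corner minors are positive on `Pos` -/
theorem Pos.nm_pos : ∀ {n : ℕ} {u : Matrix (Fin n) (Fin n) ℝ}, Pos n u → ∀ (j : ℕ)
    (hj : j + 1 ≤ n), 0 < nm j hj ⟨j, by omega⟩ u
  | 0, _, _ => fun _ hj => absurd hj (by omega)
  | n + 1, u, ⟨b, w, hb, hw, h⟩ => by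
    intro j hj
    rcases Nat.lt_or_ge j n with hjn | hjn
    · subst h
      rw [nm_step_corner b w j hjn]
      exact mul_pos (Finset.prod_pos fun a _ => hb _) (hw.nm_pos j hjn)
    · have hjn' : j = n := by omega
      subst hjn'
      rw [nm_full, (Pos.uni ⟨b, w, hb, hw, h⟩ : Uni u).det]
      exact zero_lt_one

end Pool.TPT
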