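import Pool.Agent.TPT.Mul

/-! A path of positive matrices from the Pascal matrices to a given one. -/

namespace Pool.TPT

open Matrix Filter Topology

theorem joinedIn_Pos : ∀ {n : ℕ} {u v : Matrix (Fin n) (Fin n) ℝ}, Pos n u → Pos n v →
    JoinedIn {u : Matrix (Fin n) (Fin n) ℝ | Pos n u} u v
  | 0, u, v, _, _ => by
    have h : u = v := by ext i; exact i.elim0
    subst h
    exact JoinedIn.refl trivial
  | n + 1, u, v, ⟨b, w, hb, hw, hu⟩, ⟨b', w', hb', hw', hv⟩ => by
    subst hu hv
    obtain ⟨γ, hγ⟩ := joinedIn_Pos hw hw'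
    have h1 : JoinedIn {b : Fin n → ℝ | ∀ i, 0 < b i} b b' := by
      have hc : Convex ℝ {b : Fin n → ℝ | ∀ i, 0 < b i} := by
        have : {b : Fin n → ℝ | ∀ i, 0 < b i} = Set.univ.pi fun _ => Set.Ioi (0 : ℝ) := by
          ext b; simp
        rw [this]
        exact convex_pi fun _ _ => convex_Ioi 0
      exact (hc.isPathConnected ⟨b, hb⟩).joinedIn b hb b' hb'
    obtain ⟨β, hβ⟩ := h1
    refine ⟨⟨⟨fun t => step (β t) (γ t), ?_⟩, by simp, by simp⟩, fun t => ?_⟩
    · rw [continuous_iff_continuousAt]
      intro t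
      refine tendsto_entry.2 fun i j => ?_
      refine tendsto_step (b' := β t) (w' := γ t) (fun i => ?_) (fun i j => ?_) i j
      · exact ((continuous_apply i).comp β.continuous).tendsto t
      · exact ((continuous_apply j).comp ((continuous_apply i).comp γ.continuous)).tendsto t
    · exact ⟨β t, γ t, hβ t, hγ t, rfl⟩

theorem continuous_Pas' {n : ℕ} : Continuous (Pool.TPC.Pas n) := by
  refine continuous_pi fun i => continuous_pi fun j => ?_
  simp only [Pool.TPC.Pas, Matrix.of_apply]
  fun_prop

/-- a continuous family, positive for positive parameters, equal to the Pascal matrices up to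
parameter `1` and to the given positive matrix at parameter `2` -/
theorem exists_path {n : ℕ} {b : Matrix (Fin n) (Fin n) ℝ} (hb : Pos n b) :
    ∃ a : ℝ → Matrix (Fin n) (Fin n) ℝ, Continuous a ∧ (∀ s, 0 < s → Pos n (a s)) ∧
      (∀ s ≤ 1, a s = Pool.TPC.Pas n s) ∧ a 2 = b := by
  obtain ⟨γ, hγ⟩ := joinedIn_Pos (pos_Pas (n := n) one_pos) hb
  refine ⟨fun s => if s ≤ 1 then Pool.TPC.Pas n s else γ.extend (s - 1), ?_, ?_, ?_, ?_⟩
  · refine Continuous.if_le continuous_Pas' (γ.continuous_extend.comp (by fun_prop)) continuous_id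
      continuous_const ?_
    intro s hs
    subst hs
    simp
  · intro s hs
    by_cases h : s ≤ 1
    · simp only [h, if_true]
      exact pos_Pas hs
    · simp only [h, if_false]
      exact hγ _
  · intro s hs
    simp only [hs, if_true]
  · have h : ¬ (2 : ℝ) ≤ 1 := by norm_num
    simp only [h, if_false]
    have h2 : (2 : ℝ) - 1 = 1 := by norm_num
    rw [h2]
    simp

end Pool.TPT
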