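import Pool.Agent.CT.Deg5

/-!
# Persistence of isolated zeros of `N` analytic equations in `N` unknowns
-/

open MeasureTheory Set Filter Topology Metric
open scoped ContDiff

namespace Pool.Agent.TPT

section

/-- persistence, uniform version -/
theorem pers_unif {N : ℕ} {f : (Fin N → ℂ) → (Fin N → ℂ)} (hf : ContDiff ℂ 1 f)
    (x0 : Fin N → ℂ) {ε : ℝ} (hε : 0 < ε) (h0 : f x0 = 0)
    (hiso : ∀ x ∈ closedBall x0 ε, f x = 0 → x = x0) :
    ∃ η > 0, ∀ G : (Fin N → ℂ) → (Fin N → ℂ), ContDiff ℂ 1 G →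
      (∀ x ∈ closedBall x0 ε, ‖G x - f x‖ < η) → ∃ x ∈ ball x0 ε, G x = 0 := by
  classical
  -- lower bound on the sphere
  have hsph : ∃ m > 0, ∀ x ∈ sphere x0 ε, m ≤ ‖f x‖ := by
    rcases (sphere x0 ε).eq_empty_or_nonempty with hem | hne
    · exact ⟨1, one_pos, by simp [hem]⟩
    · obtain ⟨y, hy, hmin⟩ := (isCompact_sphere x0 ε).exists_isMinOn hne
        (hf.continuous.norm.continuousOn)
      refine ⟨‖f y‖, norm_pos_iff.2 ?_, fun x hx => hmin hx⟩
      intro h
      have h1 := hiso y (sphere_subset_closedBall hy) h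
      rw [mem_sphere, h1, dist_self] at hy
      exact hε.ne hy
  obtain ⟨m, hm, hmf⟩ := hsph
  refine ⟨m, hm, fun G hG hGf => ?_⟩
  by_contra hno
  push Not at hno
  have hfR : ContDiff ℝ 1 f := hf.restrict_scalars ℝ
  have hGR : ContDiff ℝ 1 G := hG.restrict_scalars ℝ
  set F : ℝ × (Fin N → ℂ) → (Fin N → ℂ) := fun p => (1 - p.1) • G p.2 + p.1 • f p.2 with hFdef
  have hF : ContDiff ℝ 1 F := by
    apply ContDiff.add
    · exact (contDiff_const.sub contDiff_fst).smul (hGR.comp contDiff_snd)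
    · exact contDiff_fst.smul (hfR.comp contDiff_snd)
  set U : Set (ℝ × (Fin N → ℂ)) := univ ×ˢ ball x0 ε with hUdef
  set K : Set (ℝ × (Fin N → ℂ)) := (Icc (0 : ℝ) 1 ×ˢ closedBall x0 ε) ∩ F ⁻¹' {0} with hKdef
  have hK : IsCompact K :=
    (isCompact_Icc.prod (isCompact_closedBall x0 ε)).inter_right
      (isClosed_singleton.preimage hF.continuous)
  have hU : IsOpen U := isOpen_univ.prod isOpen_ball
  have hKU : K ⊆ U := by
    rintro ⟨t, x⟩ ⟨⟨ht, hx⟩, hFx⟩
    refine ⟨mem_univ _, ?_⟩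
    by_contra hxb
    have hxs : x ∈ sphere x0 ε := by
      rw [mem_sphere]
      rw [mem_ball, not_lt] at hxb
      exact le_antisymm hx hxb
    have h1 := hmf x hxs
    have h2 := hGf x hx
    have h3 : f x = (1 - t) • (f x - G x) := by
      have h4 : (1 - t) • G x + t • f x = 0 := hFx
      have h5 : f x = (1 - t) • (f x - G x) + ((1 - t) • G x + t • f x) := by
        simp only [smul_sub, sub_smul, one_smul]
        abel
      rw [h4, add_zero] at h5
      exact h5
    have ht' : t ∈ Icc (0 : ℝ) 1 := ht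
    have h6 : ‖f x‖ ≤ ‖G x - f x‖ := by
      have h7 : ‖f x‖ = (1 - t) * ‖f x - G x‖ := by
        conv_lhs => rw [h3]
        rw [norm_smul, Real.norm_eq_abs, abs_of_nonneg (sub_nonneg.2 ht'.2)]
      rw [h7, norm_sub_rev (G x) (f x)]
      have : 1 - t ≤ 1 := by linarith [ht'.1]
      nlinarith [norm_nonneg (f x - G x)]
    linarith
  have hz : ∀ p ∈ U, p.1 ∈ Icc (0 : ℝ) 1 → F p = 0 → p ∈ K := by
    rintro ⟨t, x⟩ ⟨_, hx⟩ ht h
    exact ⟨⟨ht, ball_subset_closedBall hx⟩, h⟩
  have hKF : ∀ p ∈ K, F p = 0 := fun p hp => hp.2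
  have hd : ∀ t x, 0 ≤ (fderiv ℝ (fun y => F (t, y)) x).det := by
    intro t x
    have hdiff : Differentiable ℂ (fun y => F (t, y)) := by
      have h1 : Differentiable ℂ f := hf.differentiable (by norm_num)
      have h2 : Differentiable ℂ G := hG.differentiable (by norm_num)
      simp only [hFdef]
      exact (h2.const_smul (1 - t)).add (h1.const_smul t)
    rw [CT.det_fderiv_real hdiff]
    exact Complex.normSq_nonneg _
  obtain ⟨V, L, hVo, hKV, hL, η, hη, hb⟩ := CT.nonneg_degree hF hK hU hKU hz hKF hd ∅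
    (fun x => by
      simp only [Finset.notMem_empty, false_iff]
      rintro ⟨⟨_, hx⟩, h⟩
      have h1 : G x = 0 := by
        have : (1 - (0 : ℝ)) • G x + (0 : ℝ) • f x = 0 := h
        simpa using this
      have hK' : ((0 : ℝ), x) ∈ K := ⟨⟨⟨le_rfl, zero_le_one⟩, hx⟩, h⟩
      exact hno x (hKU hK').2 h1)
    (by simp)
  -- perturbation of `f` with a simple zero at `x0`
  obtain ⟨M, hM⟩ := hL.exists_bound_of_continuousOn
    (f := fun x : Fin N → ℂ => x - x0) (by fun_prop)
  obtain ⟨δ, hδ0, hδ, hdet⟩ := CT.exists_add_smul_det_ne (fderiv ℂ f x0)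
    (δ := η / (max M 0 + 1)) (by positivity)
  set g : (Fin N → ℂ) → (Fin N → ℂ) := fun x => f x + (δ : ℂ) • (x - x0) with hg
  have hgC : ContDiff ℂ 1 g := hf.add ((contDiff_id.sub contDiff_const).const_smul (δ : ℂ))
  have hgd : Differentiable ℂ g := hgC.differentiable (by norm_num)
  have hfd : HasFDerivAt g (fderiv ℂ f x0 + (δ : ℂ) • ContinuousLinearMap.id ℂ (Fin N → ℂ)) x0 := by
    have h1 : HasFDerivAt f (fderiv ℂ f x0) x0 :=
      ((hf.differentiable (by norm_num)) x0).hasFDerivAt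
    have h2 : HasFDerivAt (fun x : Fin N → ℂ => x - x0)
        (ContinuousLinearMap.id ℂ (Fin N → ℂ)) x0 := (hasFDerivAt_id x0).sub_const x0
    exact h1.add (h2.const_smul (δ : ℂ))
  have h := hb g (hgC.restrict_scalars ℝ)
    (fun x => by
      rw [CT.det_fderiv_real hgd]
      exact Complex.normSq_nonneg _)
    (fun x hx => by
      have e : g x - F (1, x) = (δ : ℂ) • (x - x0) := by
        simp only [hg, hFdef]
        simp
      rw [e, norm_smul, Complex.norm_real, Real.norm_eq_abs, abs_of_pos hδ0]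
      have h1 : ‖x - x0‖ ≤ M := hM x hx
      have h2 : ‖x - x0‖ < max M 0 + 1 := by
        have := le_max_left M 0
        linarith
      have h3 : δ * ‖x - x0‖ ≤ δ * (max M 0 + 1) := by
        apply mul_le_mul_of_nonneg_left h2.le hδ0.le
      have h4 : δ * (max M 0 + 1) < η := by
        rwa [lt_div_iff₀ (by positivity)] at hδ
      linarith)
    {x0}
    (fun x hx => by
      rw [Finset.mem_singleton] at hx
      subst hx
      refine ⟨hKV _ ⟨⟨⟨zero_le_one, le_rfl⟩, mem_closedBall_self hε.le⟩, ?_⟩, ?_, ?_⟩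
      · change (1 - (1 : ℝ)) • G x + (1 : ℝ) • f x = 0
        simp [h0]
      · simp [hg, h0]
      · rw [CT.det_fderiv_real hgd, hfd.fderiv]
        simpa using hdet)
  simp at h

/-- persistence for a finite index type -/
theorem pers_unif' {ι : Type*} [Fintype ι] {f : (ι → ℂ) → (ι → ℂ)} (hf : ContDiff ℂ 1 f)
    (x0 : ι → ℂ) {ε : ℝ} (hε : 0 < ε) (h0 : f x0 = 0)
    (hiso : ∀ x ∈ closedBall x0 ε, f x = 0 → x = x0) :
    ∃ η > 0, ∀ G : (ι → ℂ) → (ι → ℂ), ContDiff ℂ 1 G →
      (∀ x ∈ closedBall x0 ε, ‖G x - f x‖ < η) → ∃ x ∈ ball x0 ε, G x = 0 := by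
  classical
  set e : ι ≃ Fin (Fintype.card ι) := Fintype.equivFin ι with he
  set T : (Fin (Fintype.card ι) → ℂ) ≃ₗᵢ[ℂ] (ι → ℂ) :=
    { LinearEquiv.funCongrLeft ℂ ℂ e with
      norm_map' := fun x => by
        change ‖fun i => x (e i)‖ = ‖x‖
        apply le_antisymm
        · exact (pi_norm_le_iff_of_nonneg (norm_nonneg _)).2 fun i => norm_le_pi_norm x (e i)
        · refine (pi_norm_le_iff_of_nonneg (norm_nonneg _)).2 fun j => ?_
          have := norm_le_pi_norm (fun i => x (e i)) (e.symm j)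
          simpa using this } with hT
  have hTc : ContDiff ℂ 1 T := T.contDiff
  have hTs : ContDiff ℂ 1 T.symm := T.symm.contDiff
  have hiso' : ∀ x ∈ closedBall (T.symm x0) ε, (fun y => T.symm (f (T y))) x = 0 →
      x = T.symm x0 := by
    intro x hx h
    have h1 : f (T x) = 0 := by
      have := congrArg T h
      simpa using this
    have h2 : T x ∈ closedBall x0 ε := by
      rw [mem_closedBall] at hx ⊢
      rw [← T.dist_map, T.apply_symm_apply] at hx
      exact hx
    rw [← hiso _ h2 h1, T.symm_apply_apply]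
  obtain ⟨η, hη, hb⟩ := pers_unif (f := fun y => T.symm (f (T y)))
    (hTs.comp (hf.comp hTc)) (T.symm x0) hε (by simp [h0]) hiso'
  refine ⟨η, hη, fun G hG hGf => ?_⟩
  obtain ⟨x, hx, hGx⟩ := hb (fun y => T.symm (G (T y))) (hTs.comp (hG.comp hTc))
    (fun x hx => by
      rw [← map_sub, T.symm.norm_map]
      apply hGf
      rw [mem_closedBall] at hx ⊢
      rw [← T.dist_map, T.apply_symm_apply] at hx
      exact hx)
  refine ⟨T x, ?_, ?_⟩
  · rw [mem_ball] at hx ⊢
    rw [← T.dist_map, T.apply_symm_apply] at hx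
    exact hx
  · have := congrArg T hGx
    simpa using this

/-- persistence in a continuous family -/
theorem pers {ι : Type*} [Fintype ι] {X : Type*} [TopologicalSpace X]
    (F : X → (ι → ℂ) → (ι → ℂ)) (hF : ∀ c, ContDiff ℂ 1 (F c))
    (hc : Continuous fun p : X × (ι → ℂ) => F p.1 p.2) (c0 : X) (x0 : ι → ℂ)
    (h0 : F c0 x0 = 0) (hiso : ∀ᶠ x in 𝓝 x0, F c0 x = 0 → x = x0) {U : Set (ι → ℂ)}
    (hU : U ∈ 𝓝 x0) : ∀ᶠ c in 𝓝 c0, ∃ x ∈ U, F c x = 0 := by
  obtain ⟨ε, hε, hball⟩ := Metric.nhds_basis_closedBall.mem_iff.1 (inter_mem hU hiso)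
  obtain ⟨η, hη, hb⟩ := pers_unif' (hF c0) x0 hε h0 (fun x hx => (hball hx).2)
  have hK : IsCompact (closedBall x0 ε) := isCompact_closedBall x0 ε
  have hev : ∀ᶠ c in 𝓝 c0, ∀ x ∈ closedBall x0 ε, ‖F c x - F c0 x‖ < η := by
    apply hK.eventually_forall_of_forall_eventually
    intro x _
    have h1 : Continuous fun p : X × (ι → ℂ) => ‖F p.1 p.2 - F c0 p.2‖ :=
      (hc.sub (hc.comp (continuous_const.prodMk continuous_snd))).norm
    exact h1.continuousAt.eventually_lt continuousAt_const (by simpa using hη)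
  filter_upwards [hev] with c hcx
  obtain ⟨x, hx, hFx⟩ := hb (F c) (hF c) hcx
  exact ⟨x, (hball (ball_subset_closedBall hx)).1, hFx⟩

end

end Pool.Agent.TPT
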